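import Mathlib

/-! The coefficients of `1/((1-qX)^2(1-zX)(1-z̄X))` are nonnegative if `Re z^k ≥ -q^k` for all `k ≥ 1`,
and its values. -/

set_option autoImplicit false

open Complex Filter Topology PowerSeries
open scoped ComplexOrder

namespace Pool.Agent.J6H30.CMO

/-- geometric power series -/
noncomputable def geo (z : ℂ) : PowerSeries ℂ := PowerSeries.mk fun k => z ^ k

theorem geo_mul (z : ℂ) : geo z * (1 - PowerSeries.C z * PowerSeries.X) = 1 := by
  ext n
  rw [mul_sub, mul_one, map_sub, ← mul_assoc, mul_comm (geo z) (PowerSeries.C z), mul_assoc]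
  rcases n with _ | n
  · simp [geo]
  · rw [PowerSeries.coeff_C_mul, PowerSeries.coeff_succ_mul_X]
    simp [geo, pow_succ, PowerSeries.coeff_one]
    ring

/-- `X d/dX` -/
noncomputable def xd (P : PowerSeries ℂ) : PowerSeries ℂ :=
  PowerSeries.X * PowerSeries.derivative ℂ P

theorem coeff_xd (P : PowerSeries ℂ) (n : ℕ) :
    PowerSeries.coeff n (xd P) = n * PowerSeries.coeff n P := by
  rcases n with _ | n
  · simp [xd]
  · rw [xd, mul_comm, PowerSeries.coeff_succ_mul_X, PowerSeries.coeff_derivative]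
    push_cast; ring

theorem xd_mul (P Q : PowerSeries ℂ) : xd (P * Q) = xd P * Q + P * xd Q := by
  simp only [xd, Derivation.leibniz, smul_eq_mul]
  ring

/-- `z X / (1 - z X)` -/
noncomputable def gq (z : ℂ) : PowerSeries ℂ := PowerSeries.mk fun k => if k = 0 then 0 else z ^ k

theorem gq_eq (z : ℂ) : gq z = geo z - 1 := by
  ext n
  rcases n with _ | n
  · simp [gq, geo]
  · simp [gq, geo, PowerSeries.coeff_one]

theorem xd_geo (z : ℂ) : xd (geo z) = geo z * gq z := by
  have h1 := geo_mul z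
  have h2 : xd (geo z * (1 - PowerSeries.C z * PowerSeries.X)) = 0 := by
    rw [h1]; simp [xd]
  rw [xd_mul] at h2
  have h3 : xd (1 - PowerSeries.C z * PowerSeries.X) = - (PowerSeries.C z * PowerSeries.X) := by
    simp only [xd, map_sub, Derivation.leibniz, smul_eq_mul, PowerSeries.derivative_X,
      PowerSeries.derivative_C]
    simp
    ring
  rw [h3] at h2
  have h4 : xd (geo z) * (1 - PowerSeries.C z * PowerSeries.X) =
      geo z * (PowerSeries.C z * PowerSeries.X) := by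
    linear_combination h2
  have h5 : PowerSeries.C z * PowerSeries.X = 1 - (1 - PowerSeries.C z * PowerSeries.X) := by ring
  have h6 : geo z * (PowerSeries.C z * PowerSeries.X) = gq z := by
    rw [h5, mul_sub, mul_one, h1, gq_eq]
  calc xd (geo z) = xd (geo z) * (geo z * (1 - PowerSeries.C z * PowerSeries.X)) := by
        rw [h1, mul_one]
    _ = geo z * (xd (geo z) * (1 - PowerSeries.C z * PowerSeries.X)) := by ring
    _ = geo z * gq z := by rw [h4, h6]

/-- the local series -/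
noncomputable def locS (q z : ℂ) : PowerSeries ℂ :=
  geo q * geo q * geo z * geo ((starRingEnd ℂ) z)

theorem xd_locS (q z : ℂ) :
    xd (locS q z) = locS q z * (gq q + gq q + gq z + gq ((starRingEnd ℂ) z)) := by
  simp only [locS, xd_mul, xd_geo]
  ring

theorem rec_nonneg (c α : ℕ → ℂ) (h0 : 0 ≤ c 0) (hα : ∀ j, 0 ≤ α j) (hα0 : α 0 = 0)
    (h : ∀ k : ℕ, (k : ℂ) * c k = ∑ x ∈ Finset.HasAntidiagonal.antidiagonal k, c x.1 * α x.2) : ∀ k, 0 ≤ c k := by
  intro k
  induction k using Nat.strong_induction_on with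
  | _ k ih =>
    rcases Nat.eq_zero_or_pos k with rfl | hk
    · exact h0
    · have h1 : 0 ≤ (k : ℂ) * c k := by
        rw [h k]
        refine Finset.sum_nonneg fun x hx => ?_
        rcases Nat.eq_zero_or_pos x.2 with h2 | h2
        · rw [h2, hα0, mul_zero]
        · refine mul_nonneg (ih _ ?_) (hα _)
          have := Finset.HasAntidiagonal.mem_antidiagonal.1 hx
          omega
      have hk' : (0 : ℝ) < k := by exact_mod_cast hk
      rw [Complex.le_def] at h1 ⊢
      have e1 : (k : ℂ) = ((k : ℝ) : ℂ) := by push_cast; rfl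
      rw [e1, re_ofReal_mul, im_ofReal_mul] at h1
      simp only [zero_re, zero_im] at h1 ⊢
      refine ⟨?_, ?_⟩
      · by_contra hcon
        push Not at hcon
        nlinarith [h1.1]
      · have := h1.2
        rcases mul_eq_zero.1 this.symm with h3 | h3
        · linarith
        · exact h3.symm

theorem locS_nonneg {q : ℝ} (hq : 0 ≤ q) {z : ℂ} (hz : ∀ k : ℕ, 1 ≤ k → -q ^ k ≤ (z ^ k).re) (k : ℕ) :
    0 ≤ PowerSeries.coeff k (locS q z) := by
  refine rec_nonneg (fun k => PowerSeries.coeff k (locS q z))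
    (fun k => PowerSeries.coeff k (gq (q : ℂ) + gq q + gq z + gq ((starRingEnd ℂ) z))) ?_ ?_ ?_ ?_ k
  · simp [locS, geo]
  · intro j
    rcases Nat.eq_zero_or_pos j with rfl | hj
    · simp [gq]
    · simp only [map_add, gq, PowerSeries.coeff_mk, if_neg hj.ne']
      have e1 : (starRingEnd ℂ) z ^ j = (starRingEnd ℂ) (z ^ j) := (map_pow _ _ _).symm
      have e2 : (q : ℂ) ^ j + (q : ℂ) ^ j + z ^ j + (starRingEnd ℂ) (z ^ j)
          = ((2 * q ^ j + 2 * (z ^ j).re : ℝ) : ℂ) := by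
        rw [add_assoc, Complex.add_conj]
        push_cast; ring
      rw [e1, e2]
      have := hz j hj
      have h3 : 0 ≤ 2 * q ^ j + 2 * (z ^ j).re := by linarith
      exact_mod_cast h3
  · simp [gq]
  · intro k
    rw [← coeff_xd, xd_locS, PowerSeries.coeff_mul]

/-- absolute convergence and value at `t` -/
def Val (P : PowerSeries ℂ) (t v : ℂ) : Prop :=
  Summable (fun k => ‖PowerSeries.coeff k P * t ^ k‖) ∧
    HasSum (fun k => PowerSeries.coeff k P * t ^ k) v

theorem Val.mul {P Q : PowerSeries ℂ} {t v w : ℂ} (h1 : Val P t v) (h2 : Val Q t w) :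
    Val (P * Q) t (v * w) := by
  have e : ∀ k, PowerSeries.coeff k (P * Q) * t ^ k =
      ∑ x ∈ Finset.HasAntidiagonal.antidiagonal k,
        (PowerSeries.coeff x.1 P * t ^ x.1) * (PowerSeries.coeff x.2 Q * t ^ x.2) := by
    intro k
    rw [PowerSeries.coeff_mul, Finset.sum_mul]
    refine Finset.sum_congr rfl fun x hx => ?_
    have := Finset.HasAntidiagonal.mem_antidiagonal.1 hx
    rw [← this, pow_add]; ring
  have h3 := summable_norm_sum_mul_antidiagonal_of_summable_norm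
    (f := fun k => PowerSeries.coeff k P * t ^ k) (g := fun k => PowerSeries.coeff k Q * t ^ k)
    h1.1 h2.1
  have h4 := tsum_mul_tsum_eq_tsum_sum_antidiagonal_of_summable_norm
    (f := fun k => PowerSeries.coeff k P * t ^ k) (g := fun k => PowerSeries.coeff k Q * t ^ k)
    h1.1 h2.1
  rw [h1.2.tsum_eq, h2.2.tsum_eq] at h4
  have h5 : (fun k => PowerSeries.coeff k (P * Q) * t ^ k) = fun k =>
      ∑ x ∈ Finset.HasAntidiagonal.antidiagonal k,
        (PowerSeries.coeff x.1 P * t ^ x.1) * (PowerSeries.coeff x.2 Q * t ^ x.2) := funext e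
  refine ⟨?_, ?_⟩
  · have h6 : (fun k => ‖PowerSeries.coeff k (P * Q) * t ^ k‖) = fun k =>
      ‖∑ x ∈ Finset.HasAntidiagonal.antidiagonal k,
        (PowerSeries.coeff x.1 P * t ^ x.1) * (PowerSeries.coeff x.2 Q * t ^ x.2)‖ := by
      funext k; rw [e k]
    rw [h6]; exact h3
  · rw [h5, h4]
    exact h3.of_norm.hasSum

theorem val_geo {z t : ℂ} (h : ‖z * t‖ < 1) : Val (geo z) t (1 - z * t)⁻¹ := by
  have e : ∀ k, PowerSeries.coeff k (geo z) * t ^ k = (z * t) ^ k := by
    intro k; simp [geo, mul_pow]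
  refine ⟨?_, ?_⟩
  · simp only [e, norm_pow]
    exact summable_geometric_of_lt_one (norm_nonneg _) h
  · simp only [e]
    exact hasSum_geometric_of_norm_lt_one h

/-- the value of the local series at a positive real number is at least `(1 - (q t)^2)^(-2)` -/
theorem locS_val {q t : ℝ} (hq : 0 ≤ q) (ht : 0 ≤ t) (hqt : q * t < 1) {z : ℂ} (hzt : ‖z‖ * t < 1)
    (hz : ‖z‖ ≤ q ∨ ∃ r : ℝ, q ≤ r ∧ z = r) :
    Summable (fun k => ‖PowerSeries.coeff k (locS q z) * (t : ℂ) ^ k‖) ∧
    ∃ v : ℝ, HasSum (fun k => PowerSeries.coeff k (locS q z) * (t : ℂ) ^ k) (v : ℂ) ∧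
      ((1 - (q * t) ^ 2)⁻¹) ^ 2 ≤ v := by
  have hn1 : ‖(q : ℂ) * t‖ < 1 := by
    rw [← ofReal_mul, norm_real, Real.norm_of_nonneg (mul_nonneg hq ht)]; exact hqt
  have hn2 : ‖z * t‖ < 1 := by
    rw [norm_mul, norm_real, Real.norm_of_nonneg ht]; exact hzt
  have hn3 : ‖(starRingEnd ℂ) z * t‖ < 1 := by
    rw [norm_mul, norm_real, Real.norm_of_nonneg ht, RCLike.norm_conj]; exact hzt
  have hv : Val (locS q z) t ((1 - (q : ℂ) * t)⁻¹ * (1 - (q : ℂ) * t)⁻¹ * (1 - z * t)⁻¹ *
      (1 - (starRingEnd ℂ) z * t)⁻¹) :=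
    (((val_geo hn1).mul (val_geo hn1)).mul (val_geo hn2)).mul (val_geo hn3)
  refine ⟨hv.1, ((1 - q * t) ^ 2)⁻¹ * (‖1 - z * t‖ ^ 2)⁻¹, ?_, ?_⟩
  · have e : (1 - (q : ℂ) * t)⁻¹ * (1 - (q : ℂ) * t)⁻¹ * (1 - z * t)⁻¹ *
      (1 - (starRingEnd ℂ) z * t)⁻¹ = ((((1 - q * t) ^ 2)⁻¹ * (‖1 - z * t‖ ^ 2)⁻¹ : ℝ) : ℂ) := by
      have e1 : (1 - z * t) * (1 - (starRingEnd ℂ) z * t) = ((‖1 - z * t‖ ^ 2 : ℝ) : ℂ) := by
        have : (1 - (starRingEnd ℂ) z * t) = (starRingEnd ℂ) (1 - z * t) := by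
          simp
        rw [this, Complex.mul_conj, Complex.normSq_eq_norm_sq]
      rw [ofReal_mul, ofReal_inv, ofReal_inv, ← e1]
      push_cast
      rw [mul_inv, pow_two, mul_inv]
      ring
    rw [← e]; exact hv.2
  · have h1 : 0 < 1 - q * t := by linarith
    have h2 : ‖1 - z * t‖ ≤ 1 + q * t := by
      rcases hz with h | ⟨r, hr, rfl⟩
      · calc ‖1 - z * t‖ ≤ ‖(1 : ℂ)‖ + ‖z * t‖ := norm_sub_le _ _
          _ ≤ 1 + q * t := by
            rw [norm_one, norm_mul, norm_real, Real.norm_of_nonneg ht]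
            gcongr
      · rw [← ofReal_mul, ← ofReal_one, ← ofReal_sub, norm_real, Real.norm_eq_abs]
        rw [norm_real, Real.norm_eq_abs, abs_of_nonneg (hq.trans hr)] at hzt
        rw [abs_of_nonneg (by linarith)]
        nlinarith [mul_nonneg hq ht, mul_nonneg (hq.trans hr) ht]
    have h3 : 0 < ‖1 - z * t‖ := by
      rw [norm_pos_iff]
      intro h
      have : z * t = 1 := by linear_combination -h
      rw [this] at hn2
      simp at hn2
    have h4 : (1 - q * t) * ‖1 - z * t‖ ≤ 1 - (q * t) ^ 2 := by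
      nlinarith
    have h5 : 0 < (1 - q * t) * ‖1 - z * t‖ := mul_pos h1 h3
    rw [← mul_inv, ← mul_pow, inv_pow]
    gcongr

end Pool.Agent.J6H30.CMO
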