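import Mathlib
import Pool.Agent.J6H30.CMO.Loc

/-! The Dirichlet convolution `1/n * 1/n * f * f̄` for completely multiplicative `f`. -/

set_option autoImplicit false

open Complex Filter Topology ArithmeticFunction
open scoped ComplexOrder

namespace Pool.Agent.J6H30.CMO

/-- completely multiplicative on the positive integers -/
structure CM (f : ℕ → ℂ) : Prop where
  one : f 1 = 1
  mul : ∀ m n : ℕ, 0 < m → 0 < n → f (m * n) = f m * f n

theorem CM.pow {f : ℕ → ℂ} (h : CM f) {p : ℕ} (hp : 0 < p) (k : ℕ) : f (p ^ k) = f p ^ k := by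
  induction k with
  | zero => simp [h.one]
  | succ k ih => rw [pow_succ, h.mul _ _ (pow_pos hp k) hp, ih, pow_succ]

theorem CM.conj {f : ℕ → ℂ} (h : CM f) : CM (fun n => (starRingEnd ℂ) (f n)) :=
  ⟨by simp [h.one], fun m n hm hn => by simp [h.mul m n hm hn]⟩

/-- `f` as an arithmetic function -/
noncomputable def cm (f : ℕ → ℂ) : ArithmeticFunction ℂ :=
  ⟨fun n => if n = 0 then 0 else f n, by simp⟩

theorem cm_apply (f : ℕ → ℂ) {n : ℕ} (hn : n ≠ 0) : cm f n = f n := by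
  simp [cm, hn]

theorem cm_mult {f : ℕ → ℂ} (h : CM f) : (cm f).IsMultiplicative := by
  rw [IsMultiplicative.iff_ne_zero]
  refine ⟨by rw [cm_apply f one_ne_zero, h.one], ?_⟩
  intro m n hm hn _
  rw [cm_apply f (mul_ne_zero hm hn), cm_apply f hm, cm_apply f hn,
    h.mul m n (Nat.pos_of_ne_zero hm) (Nat.pos_of_ne_zero hn)]

/-- `1 / n` -/
noncomputable def inv (n : ℕ) : ℂ := (n : ℂ)⁻¹

theorem inv_cm : CM inv := ⟨by simp [inv], fun m n _ _ => by simp only [inv, Nat.cast_mul, mul_inv]⟩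

/-- `1/n * 1/n * f * f̄` -/
noncomputable def ee (f : ℕ → ℂ) : ArithmeticFunction ℂ :=
  cm inv * cm inv * cm f * cm (fun n => (starRingEnd ℂ) (f n))

theorem ee_mult {f : ℕ → ℂ} (h : CM f) : (ee f).IsMultiplicative :=
  (((cm_mult inv_cm).mul (cm_mult inv_cm)).mul (cm_mult h)).mul (cm_mult h.conj)

/-- the local power series at `p` -/
noncomputable def ps (p : ℕ) (g : ArithmeticFunction ℂ) : PowerSeries ℂ :=
  PowerSeries.mk fun k => g (p ^ k)

theorem ps_mul {p : ℕ} (hp : p.Prime) (g g' : ArithmeticFunction ℂ) :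
    ps p (g * g') = ps p g * ps p g' := by
  ext k
  rw [PowerSeries.coeff_mul]
  simp only [ps, PowerSeries.coeff_mk]
  rw [ArithmeticFunction.mul_apply, Nat.sum_divisorsAntidiagonal (fun x y => g x * g' y),
    Nat.divisors_prime_pow hp, Finset.sum_map, 
    Finset.Nat.sum_antidiagonal_eq_sum_range_succ (fun i j => g (p ^ i) * g' (p ^ j))]
  refine Finset.sum_congr rfl fun i hi => ?_
  simp only [Function.Embedding.coeFn_mk]
  rw [Nat.pow_div (by have := Finset.mem_range.1 hi; omega) hp.pos]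

theorem ps_cm {f : ℕ → ℂ} (h : CM f) {p : ℕ} (hp : 0 < p) : ps p (cm f) = geo (f p) := by
  ext k
  simp only [ps, geo, PowerSeries.coeff_mk]
  rw [cm_apply f (pow_pos hp k).ne', h.pow hp]

theorem ps_ee {f : ℕ → ℂ} (h : CM f) {p : ℕ} (hp : p.Prime) :
    ps p (ee f) = locS (((p : ℝ)⁻¹ : ℝ) : ℂ) (f p) := by
  have e : (((p : ℝ)⁻¹ : ℝ) : ℂ) = inv p := by simp [inv]
  rw [ee, ps_mul hp, ps_mul hp, ps_mul hp, ps_cm h hp.pos, ps_cm inv_cm hp.pos,
    ps_cm h.conj hp.pos, locS, e]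

/-- `|f(p)| ≤ 1/p` or `f(p)` is real and at least `1/p` -/
def Good (f : ℕ → ℂ) (p : ℕ) : Prop :=
  ‖f p‖ ≤ (p : ℝ)⁻¹ ∨ ∃ r : ℝ, (p : ℝ)⁻¹ ≤ r ∧ f p = r

theorem Good.re {f : ℕ → ℂ} {p : ℕ} (h : Good f p) (k : ℕ) (_hk : 1 ≤ k) :
    -((p : ℝ)⁻¹) ^ k ≤ ((f p) ^ k).re := by
  have hp0 : (0 : ℝ) ≤ (p : ℝ)⁻¹ := by positivity
  rcases h with h | ⟨r, hr, h⟩
  · have h1 : |((f p) ^ k).re| ≤ ‖(f p) ^ k‖ := Complex.abs_re_le_norm _
    rw [norm_pow] at h1
    have h2 : ‖f p‖ ^ k ≤ ((p : ℝ)⁻¹) ^ k := by gcongr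
    linarith [(abs_le.1 h1).1]
  · rw [h, ← ofReal_pow, ofReal_re]
    have h1 : 0 ≤ r ^ k := pow_nonneg (hp0.trans hr) k
    have h2 : 0 ≤ ((p : ℝ)⁻¹) ^ k := by positivity
    linarith

theorem ee_prime_nonneg {f : ℕ → ℂ} (h : CM f) {p : ℕ} (hp : p.Prime) (hg : Good f p) (k : ℕ) :
    0 ≤ ee f (p ^ k) := by
  have h1 : ee f (p ^ k) = PowerSeries.coeff k (ps p (ee f)) := by simp [ps]
  rw [h1, ps_ee h hp]
  exact locS_nonneg (by positivity) (fun k hk => hg.re k hk) k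

theorem ee_nonneg {f : ℕ → ℂ} (h : CM f) (hg : ∀ p : ℕ, p.Prime → Good f p) (n : ℕ) :
    0 ≤ ee f n := by
  rcases eq_or_ne n 0 with rfl | hn
  · simp
  · rw [(ee_mult h).multiplicative_factorization (ee f) hn]
    refine Finset.prod_nonneg fun p hp => ?_
    have hp' : p.Prime := Nat.prime_of_mem_primeFactors (by simpa using hp)
    exact ee_prime_nonneg h hp' (hg p hp') _

end Pool.Agent.J6H30.CMO
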