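import Mathlib

/-! Landau positivity: a Dirichlet series with nonnegative coefficients whose sum continues
analytically to a disc about a real point is nonnegative on the real part of the disc. -/

set_option autoImplicit false

open Complex Metric Filter Topology
open scoped ComplexOrder

namespace Pool.Agent.J6H30.CMO

theorem landau_nonneg {a : ℕ → ℂ} (ha : 0 ≤ a) {c r x : ℝ}
    (hc : LSeries.abscissaOfAbsConv a < c) {G : ℂ → ℂ}
    (hG : DifferentiableOn ℂ G (ball (c : ℂ) r)) (hx : x < c)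
    (hEq : ∀ s : ℂ, x < s.re → G s = LSeries a s) {σ : ℝ} (h1 : c - r < σ) (h2 : σ ≤ c) :
    0 ≤ G σ := by
  have hg : DifferentiableOn ℂ (fun z : ℂ => G (-z)) (ball ((-c : ℝ) : ℂ) r) := by
    refine hG.comp (differentiable_neg.differentiableOn) ?_
    intro z hz
    rw [mem_ball, dist_eq] at hz ⊢
    rw [← norm_neg]
    have e : -(-z - (c : ℂ)) = z - ((-c : ℝ) : ℂ) := by push_cast; ring
    rwa [e]
  have hd : ∀ n, 0 ≤ iteratedDeriv n (fun z : ℂ => G (-z)) ((-c : ℝ) : ℂ) := by
    intro n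
    rw [iteratedDeriv_comp_neg]
    have e1 : -(((-c : ℝ)) : ℂ) = (c : ℂ) := by push_cast; ring
    rw [e1, smul_eq_mul]
    have e2 : G =ᶠ[𝓝 (c : ℂ)] LSeries a := by
      have ho : {s : ℂ | x < s.re} ∈ 𝓝 (c : ℂ) := by
        refine (isOpen_lt continuous_const continuous_re).mem_nhds ?_
        simpa using hx
      filter_upwards [ho] with s hs using hEq s hs
    rw [e2.iteratedDeriv_eq]
    exact LSeries.iteratedDeriv_alternating ha hc n
  have := DifferentiableOn.nonneg_of_iteratedDeriv_nonneg hg hd (z := ((-σ : ℝ) : ℂ)) ?_ ?_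
  · simpa using this
  · exact_mod_cast neg_le_neg h2
  · rw [mem_ball, dist_eq, ← ofReal_sub, norm_real, Real.norm_eq_abs, abs_lt]
    constructor <;> linarith

/-- bound for finite partial sums -/
theorem landau_sum_le {a : ℕ → ℝ} (ha : ∀ n, 0 ≤ a n) {c r x : ℝ}
    (hc : LSeries.abscissaOfAbsConv (fun n => (a n : ℂ)) < c) {G : ℂ → ℂ}
    (hG : DifferentiableOn ℂ G (ball (c : ℂ) r)) (hx : x < c)
    (hs : ∀ s : ℂ, x < s.re → LSeriesSummable (fun n => (a n : ℂ)) s)
    (hEq : ∀ s : ℂ, x < s.re → G s = LSeries (fun n => (a n : ℂ)) s) {σ : ℝ} (h1 : c - r < σ)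
    (h2 : σ ≤ c) (T : Finset ℕ) (hT : 0 ∉ T) :
    ∑ n ∈ T, a n * (n : ℝ) ^ (-σ) ≤ (G σ).re := by
  classical
  set b : ℕ → ℂ := fun n => if n ∈ T then 0 else (a n : ℂ) with hb
  set G' : ℂ → ℂ := fun s => G s - ∑ n ∈ T, (a n : ℂ) * (n : ℂ) ^ (-s) with hG'
  have hne : ∀ n ∈ T, (n : ℂ) ≠ 0 := by
    intro n hn h
    apply hT
    have : n = 0 := by exact_mod_cast h
    rwa [this] at hn
  have hG1 : DifferentiableOn ℂ G' (ball (c : ℂ) r) := by
    refine hG.sub ?_
    refine DifferentiableOn.fun_sum fun n hn => ?_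
    refine DifferentiableOn.const_mul ?_ _
    intro s _
    refine DifferentiableAt.differentiableWithinAt ?_
    exact (differentiableAt_id.neg).const_cpow (Or.inl (hne n hn))
  have hb0 : (0 : ℕ → ℂ) ≤ b := by
    intro n
    simp only [hb, Pi.zero_apply]
    split_ifs
    · exact le_rfl
    · exact_mod_cast ha n
  have hev : b =ᶠ[atTop] (fun n => (a n : ℂ)) := by
    filter_upwards [T.eventually_all.2 (fun n _ => eventually_ne_atTop n)] with m hm
    simp only [hb]
    rw [if_neg (fun h => hm m h rfl)]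
  have hle : LSeries.abscissaOfAbsConv b < c := by
    rw [LSeries.abscissaOfAbsConv_congr' hev]; exact hc
  have hE : ∀ s : ℂ, x < s.re → G' s = LSeries b s := by
    intro s hxs
    have h4 := hs s hxs
    have h4' : LSeriesSummable b s := (LSeriesSummable_congr' s hev).2 h4
    have h5 : LSeries (fun n => (a n : ℂ)) s
        = LSeries b s + ∑ n ∈ T, (a n : ℂ) * (n : ℂ) ^ (-s) := by
      have e1 : ∀ n, LSeries.term (fun n => (a n : ℂ)) s n = LSeries.term b s n +
          (if n ∈ T then (a n : ℂ) * (n : ℂ) ^ (-s) else 0) := by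
        intro n
        rcases eq_or_ne n 0 with rfl | hn
        · simp [hT]
        · rw [LSeries.term_of_ne_zero hn, LSeries.term_of_ne_zero hn]
          simp only [hb]
          split_ifs with h
          · rw [cpow_neg]; ring
          · ring
      have e2 : HasSum (fun n => if n ∈ T then (a n : ℂ) * (n : ℂ) ^ (-s) else 0)
          (∑ n ∈ T, (a n : ℂ) * (n : ℂ) ^ (-s)) := by
        have e4 : ∑ n ∈ T, (a n : ℂ) * (n : ℂ) ^ (-s) =
            ∑ n ∈ T, (if n ∈ T then (a n : ℂ) * (n : ℂ) ^ (-s) else 0) :=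
          Finset.sum_congr rfl fun n hn => by rw [if_pos hn]
        rw [e4]
        exact hasSum_sum_of_ne_finset_zero (fun n hn => if_neg hn)
      unfold LSeries
      rw [tsum_congr e1, Summable.tsum_add h4' e2.summable, e2.tsum_eq]
    simp only [hG', hEq s hxs, h5]
    ring
  have h6 := landau_nonneg hb0 hle hG1 hx hE h1 h2
  have h7 := (Complex.le_def.1 h6).1
  simp only [hG', zero_re, sub_re, re_sum] at h7
  refine le_trans (le_of_eq ?_) (sub_nonneg.1 h7)
  refine Finset.sum_congr rfl fun n hn => ?_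
  have e3 : (n : ℂ) ^ (-(σ : ℂ)) = (((n : ℝ) ^ (-σ) : ℝ) : ℂ) := by
    rw [ofReal_cpow (Nat.cast_nonneg n)]
    push_cast; rfl
  rw [e3, ← ofReal_mul, ofReal_re]

end Pool.Agent.J6H30.CMO
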