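import Mathlib
import Pool.Agent.J6H30.CMO.Arith
import Pool.Agent.J6H30.CMO.Land

/-! The main inequality `ζ(2+2σ)^2 ≤ |σ ζ(1+σ)|^2 |M(σ)| |M'(σ)|` for `-1/2 < σ < 0`. -/

set_option autoImplicit false

open Complex Filter Topology ArithmeticFunction Metric
open scoped ComplexOrder

namespace Pool.Agent.J6H30.CMO

/-- `s ζ(1+s)` -/
noncomputable def Zr : ℂ → ℂ := Function.update (fun s => s * riemannZeta (1 + s)) 0 1

theorem Zr_apply {s : ℂ} (hs : s ≠ 0) : Zr s = s * riemannZeta (1 + s) := by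
  simp [Zr, Function.update_of_ne hs]

theorem Zr_diff : Differentiable ℂ Zr := by
  have h1 : ∀ s : ℂ, s ≠ 0 → DifferentiableAt ℂ Zr s := by
    intro s hs
    have h2 : Zr =ᶠ[𝓝 s] fun s => s * riemannZeta (1 + s) := by
      filter_upwards [isOpen_ne.mem_nhds hs] with z hz using Zr_apply hz
    refine DifferentiableAt.congr_of_eventuallyEq ?_ h2
    refine differentiableAt_id.mul ?_
    have h3 : DifferentiableAt ℂ riemannZeta (1 + s) := differentiableAt_riemannZeta (by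
      intro h; apply hs; linear_combination h)
    exact h3.comp s (by fun_prop)
  intro s
  rcases eq_or_ne s 0 with rfl | hs
  · refine (analyticAt_of_differentiable_on_punctured_nhds_of_continuousAt ?_ ?_).differentiableAt
    · filter_upwards [self_mem_nhdsWithin] with z hz using h1 z hz
    · rw [Zr, continuousAt_update_same]
      have h4 : Tendsto (fun s : ℂ => 1 + s) (𝓝[≠] 0) (𝓝[≠] 1) := by
        refine tendsto_nhdsWithin_iff.2 ⟨?_, ?_⟩
        · have : Tendsto (fun s : ℂ => 1 + s) (𝓝 0) (𝓝 (1 + 0)) := by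
            exact (continuous_const.add continuous_id).tendsto 0
          rw [add_zero] at this
          exact this.mono_left nhdsWithin_le_nhds
        · filter_upwards [self_mem_nhdsWithin] with z hz
          simpa using hz
      have h5 := riemannZeta_residue_one.comp h4
      refine h5.congr fun s => ?_
      simp
  · exact h1 s hs

theorem cm_LSeries (f : ℕ → ℂ) (s : ℂ) : LSeries (fun n => cm f n) s = LSeries f s :=
  LSeries_congr (fun {n} hn => cm_apply f hn) s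

theorem cm_summable {f : ℕ → ℂ} {s : ℂ} (h : LSeriesSummable f s) :
    LSeriesSummable (fun n => cm f n) s :=
  (LSeriesSummable_congr s (fun {n} hn => (cm_apply f hn))).2 h

theorem inv_term (s : ℂ) (n : ℕ) : LSeries.term inv s n = LSeries.term 1 (1 + s) n := by
  rcases eq_or_ne n 0 with rfl | hn
  · simp
  · rw [LSeries.term_of_ne_zero hn, LSeries.term_of_ne_zero hn, cpow_add _ _ (by exact_mod_cast hn)]
    simp [inv]
    field_simp

theorem inv_summable {s : ℂ} (hs : 0 < s.re) : LSeriesSummable inv s := by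
  have h : LSeriesSummable 1 (1 + s) := LSeriesSummable_one_iff.2 (by simpa using hs)
  unfold LSeriesSummable at h ⊢
  rwa [funext (inv_term s)]

theorem inv_LSeries {s : ℂ} (hs : 0 < s.re) : LSeries inv s = riemannZeta (1 + s) := by
  rw [← LSeries_one_eq_riemannZeta (by simpa using hs)]
  unfold LSeries
  exact tsum_congr (inv_term s)

theorem ee_LSeries {f : ℕ → ℂ} {s : ℂ} (hs : 1 < s.re) (h : LSeriesSummable f s)
    (h' : LSeriesSummable (fun n => (starRingEnd ℂ) (f n)) s) :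
    LSeriesSummable (fun n => ee f n) s ∧
    LSeries (fun n => ee f n) s = riemannZeta (1 + s) * riemannZeta (1 + s) * LSeries f s *
      LSeries (fun n => (starRingEnd ℂ) (f n)) s := by
  have h0 : 0 < s.re := by linarith
  have a1 := cm_summable (inv_summable h0)
  have a2 := LSeriesSummable_mul a1 a1
  have a3 := LSeriesSummable_mul a2 (cm_summable h)
  have a4 := LSeriesSummable_mul a3 (cm_summable h')
  refine ⟨a4, ?_⟩
  rw [ee, LSeries_mul' a3 (cm_summable h'), LSeries_mul' a2 (cm_summable h), LSeries_mul' a1 a1,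
    cm_LSeries, cm_LSeries, cm_LSeries, inv_LSeries h0]

/-- the real summand -/
noncomputable def Fs (f : ℕ → ℂ) (σ : ℝ) (n : ℕ) : ℝ := (ee f n).re * (n : ℝ) ^ (-σ)

theorem ee_real {f : ℕ → ℂ} (h : CM f) (hg : ∀ p : ℕ, p.Prime → Good f p) (n : ℕ) :
    ee f n = ((ee f n).re : ℂ) := by
  have := (Complex.le_def.1 (ee_nonneg h hg n)).2
  apply Complex.ext
  · simp
  · rw [ofReal_im, ← this, zero_im]

theorem Fs_mul {f : ℕ → ℂ} (h : CM f) (hg : ∀ p : ℕ, p.Prime → Good f p) (σ : ℝ) {m n : ℕ}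
    (hmn : m.Coprime n) : Fs f σ (m * n) = Fs f σ m * Fs f σ n := by
  have h1 := (ee_mult h).2 hmn
  rw [ee_real h hg m, ee_real h hg n] at h1
  have h2 : (ee f (m * n)).re = (ee f m).re * (ee f n).re := by
    rw [h1]; rw [← ofReal_mul, ofReal_re]
  rw [Fs, Fs, Fs, h2, Nat.cast_mul, Real.mul_rpow (Nat.cast_nonneg m) (Nat.cast_nonneg n)]
  ring

theorem Fs_one {f : ℕ → ℂ} (h : CM f) (σ : ℝ) : Fs f σ 1 = 1 := by
  simp [Fs, (ee_mult h).1]

theorem Fs_nonneg {f : ℕ → ℂ} (h : CM f) (hg : ∀ p : ℕ, p.Prime → Good f p) (σ : ℝ) (n : ℕ) :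
    0 ≤ Fs f σ n :=
  mul_nonneg (Complex.le_def.1 (ee_nonneg h hg n)).1 (Real.rpow_nonneg (Nat.cast_nonneg n) _)

theorem Fs_local {f : ℕ → ℂ} (h : CM f) (hg : ∀ p : ℕ, p.Prime → Good f p)
    {σ : ℝ} (hσ : -(1 / 2) < σ) {p : ℕ} (hp : p.Prime) (h2 : ‖f p‖ * (p : ℝ) ^ (-σ) < 1) :
    Summable (fun k => ‖Fs f σ (p ^ k)‖) ∧
      ((1 - (p : ℝ) ^ (-(2 + 2 * σ)))⁻¹) ^ 2 ≤ ∑' k, Fs f σ (p ^ k) := by
  have hp0 : (0 : ℝ) < p := by exact_mod_cast hp.pos
  have hp1 : (1 : ℝ) < p := by exact_mod_cast hp.one_lt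
  set q : ℝ := (p : ℝ)⁻¹ with hq
  set t : ℝ := (p : ℝ) ^ (-σ) with ht
  have ht0 : 0 < t := Real.rpow_pos_of_pos hp0 _
  have hq0 : 0 ≤ q := by positivity
  have hqt : q * t = (p : ℝ) ^ (-(1 + σ)) := by
    rw [hq, ht, ← Real.rpow_neg_one, ← Real.rpow_add hp0]; congr 1; ring
  have h1 : q * t < 1 := by
    rw [hqt]; exact Real.rpow_lt_one_of_one_lt_of_neg hp1 (by linarith)
  obtain ⟨hS, v, hv, hle⟩ := locS_val hq0 ht0.le h1 h2 (hg p hp)
  have e1 : ∀ k : ℕ, PowerSeries.coeff k (locS (q : ℂ) (f p)) * (t : ℂ) ^ k =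
      ((Fs f σ (p ^ k) : ℝ) : ℂ) := by
    intro k
    have e2 : PowerSeries.coeff k (locS (q : ℂ) (f p)) = ee f (p ^ k) := by
      rw [hq, ← ps_ee h hp]; simp [ps]
    have e3 : t ^ k = ((p ^ k : ℕ) : ℝ) ^ (-σ) := by
      rw [ht, ← Real.rpow_natCast, ← Real.rpow_mul hp0.le, Nat.cast_pow, ← Real.rpow_natCast,
        ← Real.rpow_mul hp0.le, mul_comm]
    rw [e2, Fs, ofReal_mul, ← ee_real h hg, ← e3]
    push_cast; rfl
  have e4 : (fun k => PowerSeries.coeff k (locS (q : ℂ) (f p)) * (t : ℂ) ^ k) =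
      fun k => ((Fs f σ (p ^ k) : ℝ) : ℂ) := funext e1
  rw [e4] at hv
  have e5 : (fun k => ‖PowerSeries.coeff k (locS (q : ℂ) (f p)) * (t : ℂ) ^ k‖) =
      fun k => ‖Fs f σ (p ^ k)‖ := by
    funext k; rw [e1 k, norm_real]
  rw [e5] at hS
  refine ⟨hS, ?_⟩
  have h6 : HasSum (fun k => Fs f σ (p ^ k)) v := by exact_mod_cast hv
  rw [h6.tsum_eq]
  have e6 : (q * t) ^ 2 = (p : ℝ) ^ (-(2 + 2 * σ)) := by
    rw [hqt, ← Real.rpow_natCast, ← Real.rpow_mul hp0.le]; congr 1; push_cast; ring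
  rwa [e6] at hle

/-- the coefficients at prime powers dominate `r ^ k` if `f(p) = r ≥ 0` -/
theorem ee_ge {f : ℕ → ℂ} (h : CM f) {p : ℕ} (hp : p.Prime) {r : ℝ} (hr : 0 ≤ r) (hf : f p = r)
    (k : ℕ) : r ^ k ≤ (ee f (p ^ k)).re := by
  have h1 : ee f (p ^ k) = PowerSeries.coeff k (ps p (ee f)) := by simp [ps]
  have hq : (0 : ℝ) ≤ (p : ℝ)⁻¹ := by positivity
  -- nonnegativity of the coefficients of products
  have hmul : ∀ P Q : PowerSeries ℂ, (∀ k, 0 ≤ PowerSeries.coeff k P) →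
      (∀ k, 0 ≤ PowerSeries.coeff k Q) → ∀ k, 0 ≤ PowerSeries.coeff k (P * Q) := by
    intro P Q hP hQ k
    rw [PowerSeries.coeff_mul]
    exact Finset.sum_nonneg fun x _ => mul_nonneg (hP _) (hQ _)
  have hgeo : ∀ a : ℝ, 0 ≤ a → ∀ k, 0 ≤ PowerSeries.coeff k (geo (a : ℂ)) := by
    intro a ha k
    rw [geo, PowerSeries.coeff_mk, ← ofReal_pow]
    exact_mod_cast pow_nonneg ha k
  have e1 : locS (((p : ℝ)⁻¹ : ℝ) : ℂ) (f p) =
      (geo (((p : ℝ)⁻¹ : ℝ) : ℂ) * geo (((p : ℝ)⁻¹ : ℝ) : ℂ) * geo (r : ℂ)) * geo (r : ℂ) := by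
    rw [locS, hf, Complex.conj_ofReal]
  have hA := hmul _ _ (hmul _ _ (hgeo _ hq) (hgeo _ hq)) (hgeo r hr)
  have h2 : ((r ^ k : ℝ) : ℂ) ≤ ee f (p ^ k) := by
    rw [h1, ps_ee h hp, e1, PowerSeries.coeff_mul]
    have h3 := Finset.single_le_sum (s := Finset.HasAntidiagonal.antidiagonal k)
      (f := fun x => PowerSeries.coeff x.1 (geo (((p : ℝ)⁻¹ : ℝ) : ℂ) *
        geo (((p : ℝ)⁻¹ : ℝ) : ℂ) * geo (r : ℂ)) * PowerSeries.coeff x.2 (geo (r : ℂ)))
      (fun x _ => mul_nonneg (hA _) (hgeo r hr _)) (a := (0, k)) (by simp)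
    refine le_trans (le_of_eq ?_) h3
    simp [geo]
  have := (Complex.le_def.1 h2).1
  rwa [ofReal_re] at this

theorem core {f : ℕ → ℂ} (h : CM f) (hg : ∀ p : ℕ, p.Prime → Good f p)
    (hs : ∀ s : ℂ, 1 < s.re → LSeriesSummable f s)
    (hs' : ∀ s : ℂ, 1 < s.re → LSeriesSummable (fun n => (starRingEnd ℂ) (f n)) s)
    {M M' : ℂ → ℂ} (hM : ∀ s : ℂ, -(1 / 2) < s.re → DifferentiableAt ℂ M s)
    (hM' : ∀ s : ℂ, -(1 / 2) < s.re → DifferentiableAt ℂ M' s)
    (hE : ∀ s : ℂ, 1 < s.re → LSeries f s = s * M s)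
    (hE' : ∀ s : ℂ, 1 < s.re → LSeries (fun n => (starRingEnd ℂ) (f n)) s = s * M' s)
    {σ : ℝ} (hσ : -(1 / 2) < σ) (hσ0 : σ < 0) :
    ‖riemannZeta (2 + 2 * σ)‖ ^ 2 ≤ ‖Zr σ‖ ^ 2 * ‖M σ‖ * ‖M' σ‖ := by
  set G : ℂ → ℂ := fun s => Zr s ^ 2 * M s * M' s with hG
  have hGd : DifferentiableOn ℂ G (ball ((2 : ℝ) : ℂ) (5 / 2)) := by
    intro s hs
    have h1 : -(1 / 2) < s.re := by
      rw [mem_ball, dist_eq] at hs
      have h2 := (abs_lt.1 (lt_of_le_of_lt (Complex.abs_re_le_norm (s - ((2 : ℝ) : ℂ))) hs)).1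
      rw [sub_re, ofReal_re] at h2
      linarith
    refine DifferentiableAt.differentiableWithinAt ?_
    exact (((Zr_diff s).pow 2).mul (hM s h1)).mul (hM' s h1)
  have hreal : (fun n => ((((ee f n).re : ℝ)) : ℂ)) = fun n => ee f n :=
    funext fun n => (ee_real h hg n).symm
  have hsum : ∀ s : ℂ, 1 < s.re → LSeriesSummable (fun n => ((((ee f n).re : ℝ)) : ℂ)) s := by
    intro s hs1
    rw [hreal]
    exact (ee_LSeries hs1 (hs s hs1) (hs' s hs1)).1
  have hEq : ∀ s : ℂ, 1 < s.re → G s = LSeries (fun n => ((((ee f n).re : ℝ)) : ℂ)) s := by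
    intro s hs1
    rw [hreal, (ee_LSeries hs1 (hs s hs1) (hs' s hs1)).2, hE s hs1, hE' s hs1, hG]
    have hs0 : s ≠ 0 := by
      rintro rfl
      simp at hs1
      linarith
    simp only [Zr_apply hs0]
    ring
  have habs : LSeries.abscissaOfAbsConv (fun n => ((((ee f n).re : ℝ)) : ℂ)) < (2 : ℝ) := by
    have h3 := (hsum ((3 / 2 : ℝ) : ℂ) (by simp; norm_num)).abscissaOfAbsConv_le
    refine lt_of_le_of_lt h3 ?_
    rw [ofReal_re]
    exact_mod_cast (by norm_num : (3 / 2 : ℝ) < 2)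
  have hland : ∀ σ : ℝ, -(1 / 2) < σ → σ < 0 → ∀ T : Finset ℕ, 0 ∉ T →
      ∑ n ∈ T, Fs f σ n ≤ (G σ).re := by
    intro σ hσ hσ0 T hT
    exact landau_sum_le (fun n => (Complex.le_def.1 (ee_nonneg h hg n)).1) habs hGd
      (by norm_num : (1 : ℝ) < 2) hsum hEq (by linarith) (by linarith) T hT
  have hb : ∀ p : ℕ, p.Prime → ‖f p‖ * (p : ℝ) ^ (-σ) < 1 := by
    intro p hp
    have hp0 : (0 : ℝ) < p := by exact_mod_cast hp.pos
    have hp1 : (1 : ℝ) < p := by exact_mod_cast hp.one_lt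
    rcases hg p hp with h3 | ⟨r, hr, h3⟩
    · calc ‖f p‖ * (p : ℝ) ^ (-σ) ≤ (p : ℝ)⁻¹ * (p : ℝ) ^ (-σ) := by gcongr
        _ = (p : ℝ) ^ (-(1 + σ)) := by
          rw [← Real.rpow_neg_one, ← Real.rpow_add hp0]; congr 1; ring
        _ < 1 := Real.rpow_lt_one_of_one_lt_of_neg hp1 (by linarith)
    · have hr0 : 0 < r := lt_of_lt_of_le (by positivity) hr
      set σ' : ℝ := (σ - 1 / 2) / 2 with hσ'
      have h4 : r * (p : ℝ) ^ (-σ') ≤ 1 := by
        by_contra hcon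
        push Not at hcon
        obtain ⟨k, hk⟩ := (tendsto_pow_atTop_atTop_of_one_lt hcon).eventually_gt_atTop
          (G σ').re |>.exists
        have h5 := hland σ' (by rw [hσ']; linarith) (by rw [hσ']; linarith) {p ^ k}
          (by simp [hp.ne_zero, Ne.symm])
        rw [Finset.sum_singleton] at h5
        have h6 := ee_ge h hp hr0.le h3 k
        have h7 : (r * (p : ℝ) ^ (-σ')) ^ k ≤ Fs f σ' (p ^ k) := by
          rw [mul_pow, Fs]
          have e3 : ((p : ℝ) ^ (-σ')) ^ k = ((p ^ k : ℕ) : ℝ) ^ (-σ') := by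
            rw [← Real.rpow_natCast, ← Real.rpow_mul hp0.le, Nat.cast_pow, ← Real.rpow_natCast,
              ← Real.rpow_mul hp0.le, mul_comm]
          rw [← e3]
          gcongr
        linarith
      rw [h3, norm_real, Real.norm_of_nonneg hr0.le]
      calc r * (p : ℝ) ^ (-σ) < r * (p : ℝ) ^ (-σ') := by
            refine mul_lt_mul_of_pos_left ?_ hr0
            exact Real.rpow_lt_rpow_of_exponent_lt hp1 (by rw [hσ']; linarith)
        _ ≤ 1 := h4
  have hprod : ∀ N : ℕ, ∏ p ∈ N.primesBelow, ((1 - (p : ℝ) ^ (-(2 + 2 * σ)))⁻¹) ^ 2 ≤ (G σ).re := by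
    intro N
    have h4 := EulerProduct.summable_and_hasSum_smoothNumbers_prod_primesBelow_tsum
      (f := Fs f σ) (Fs_one h σ) (fun {m n} hmn => Fs_mul h hg σ hmn)
      (fun {p} hp => (Fs_local h hg hσ hp (hb p hp)).1) N
    calc ∏ p ∈ N.primesBelow, ((1 - (p : ℝ) ^ (-(2 + 2 * σ)))⁻¹) ^ 2
        ≤ ∏ p ∈ N.primesBelow, ∑' k, Fs f σ (p ^ k) := by
          refine Finset.prod_le_prod (fun p _ => sq_nonneg _) fun p hp => ?_
          have hp' := Nat.prime_of_mem_primesBelow hp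
          exact (Fs_local h hg hσ hp' (hb p hp')).2
      _ = ∑' m : N.smoothNumbers, Fs f σ m := h4.2.tsum_eq.symm
      _ ≤ (G σ).re := by
          refine h4.2.summable.tsum_le_of_sum_le fun T => ?_
          have h5 := hland σ hσ hσ0
            (T.map ⟨fun m : N.smoothNumbers => (m : ℕ), Subtype.val_injective⟩) ?_
          · rwa [Finset.sum_map] at h5
          · intro hmem
            obtain ⟨m, _, hm⟩ := Finset.mem_map.1 hmem
            exact Nat.ne_zero_of_mem_smoothNumbers m.2 hm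
  have hz := riemannZeta_eulerProduct (s := ((2 + 2 * σ : ℝ) : ℂ)) (by
    rw [ofReal_re]; linarith)
  have hz2 := (hz.norm).pow 2
  have e7 : (((2 + 2 * σ : ℝ)) : ℂ) = 2 + 2 * σ := by push_cast; ring
  rw [e7] at hz2
  have h8 : (G σ).re ≤ ‖Zr σ‖ ^ 2 * ‖M σ‖ * ‖M' σ‖ := by
    calc (G σ).re ≤ ‖G σ‖ := Complex.re_le_norm _
      _ = _ := by simp only [hG, norm_mul, norm_pow]
  refine le_trans (le_of_tendsto' hz2 fun N => ?_) h8
  refine le_trans (le_of_eq ?_) (hprod N)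
  rw [norm_prod, ← Finset.prod_pow]
  refine Finset.prod_congr rfl fun p hp => ?_
  have hp' := Nat.prime_of_mem_primesBelow hp
  have hp0 : (0 : ℝ) < p := by exact_mod_cast hp'.pos
  have e8 : (p : ℂ) ^ (-(2 + 2 * (σ : ℂ))) = (((p : ℝ) ^ (-(2 + 2 * σ)) : ℝ) : ℂ) := by
    rw [ofReal_cpow hp0.le]; push_cast; rfl
  rw [e8, ← ofReal_one, ← ofReal_sub, ← ofReal_inv, norm_real, Real.norm_eq_abs, sq_abs]

end Pool.Agent.J6H30.CMO
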