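import Mathlib

/-! The Mellin transform of the partial sums. -/

set_option autoImplicit false

open Complex Filter Topology MeasureTheory Set

namespace Pool.Agent.J6H30.CMO

/-- the partial sums -/
noncomputable def PS (f : ℕ → ℂ) (t : ℝ) : ℂ := ∑ k ∈ Finset.Icc 1 ⌊t⌋₊, f k

/-- `∫_1^∞ S(t) t^(-s-1) dt` -/
noncomputable def ML (f : ℕ → ℂ) (s : ℂ) : ℂ := mellin (PS f) (-s)

theorem PS_zero (f : ℕ → ℂ) {t : ℝ} (ht : t < 1) : PS f t = 0 := by
  have : ⌊t⌋₊ = 0 := Nat.floor_eq_zero.2 ht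
  simp [PS, this]

theorem PS_meas (f : ℕ → ℂ) : Measurable (PS f) := by
  have h : Measurable (fun n : ℕ => ∑ k ∈ Finset.Icc 1 n, f k) := measurable_from_nat
  exact h.comp Nat.measurable_floor

theorem PS_loc (f : ℕ → ℂ) : LocallyIntegrableOn (PS f) (Ioi 0) := by
  have h := locallyIntegrableOn_mul_sum_Icc f (m := 1) (a := 0) le_rfl (g := fun _ => (1 : ℂ))
    ((continuous_const.locallyIntegrable).locallyIntegrableOn _)
  refine (h.mono_set Ioi_subset_Ici_self).congr ?_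
  exact Eventually.of_forall fun t => by simp [PS]

/-- the bound at infinity -/
theorem PS_top {f : ℕ → ℂ} {C : ℝ} (h : ∀ᶠ t : ℝ in atTop, √t * ‖PS f t‖ ≤ C) :
    (PS f) =O[atTop] (fun t : ℝ => t ^ (-(1 / 2 : ℝ))) := by
  refine Asymptotics.IsBigO.of_bound C ?_
  filter_upwards [h, eventually_gt_atTop 0] with t ht ht0
  rw [Real.norm_of_nonneg (Real.rpow_nonneg ht0.le _), Real.rpow_neg ht0.le, ← Real.sqrt_eq_rpow,
    ← div_eq_mul_inv, le_div_iff₀ (Real.sqrt_pos.2 ht0), mul_comm]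
  exact ht

theorem PS_bot (f : ℕ → ℂ) (b : ℝ) : (PS f) =O[𝓝[>] 0] (fun t : ℝ => t ^ (-b)) := by
  refine Asymptotics.IsBigO.of_bound 1 ?_
  filter_upwards [Ioo_mem_nhdsGT (show (0 : ℝ) < 1 by norm_num)] with t ht
  rw [PS_zero f ht.2, norm_zero, one_mul]
  exact norm_nonneg _

theorem ML_diff {f : ℕ → ℂ} {C : ℝ} (h : ∀ᶠ t : ℝ in atTop, √t * ‖PS f t‖ ≤ C) (s : ℂ)
    (hs : -(1 / 2) < s.re) : DifferentiableAt ℂ (ML f) s := by
  have h1 : DifferentiableAt ℂ (mellin (PS f)) (-s) := by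
    refine mellin_differentiableAt_of_isBigO_rpow (a := 1 / 2) (b := -s.re - 1) (PS_loc f)
      (PS_top h) ?_ (PS_bot f _) ?_
    · rw [neg_re]; linarith
    · rw [neg_re]; linarith
  exact h1.comp s differentiableAt_id.neg

theorem ML_eq (f : ℕ → ℂ) (s : ℂ) :
    ML f s = ∫ t in Ioi (1 : ℝ), (∑ k ∈ Finset.Icc 1 ⌊t⌋₊, f k) * (t : ℂ) ^ (-(s + 1)) := by
  rw [ML, mellin]
  have h1 : ∀ t : ℝ, (t : ℂ) ^ (-s - 1) • PS f t =
      (∑ k ∈ Finset.Icc 1 ⌊t⌋₊, f k) * (t : ℂ) ^ (-(s + 1)) := by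
    intro t
    rw [smul_eq_mul, mul_comm, PS]
    congr 2
    ring
  simp only [h1]
  refine setIntegral_eq_of_subset_of_ae_sdiff_eq_zero measurableSet_Ioi.nullMeasurableSet
    (Ioi_subset_Ioi zero_le_one) ?_
  have h3 : ∀ᵐ t : ℝ, t ≠ 1 := by
    simp [ae_iff, measure_singleton]
  filter_upwards [h3] with t ht ht2
  have h4 : t < 1 := lt_of_le_of_ne (not_lt.1 ht2.2) ht
  have h5 : ∑ k ∈ Finset.Icc 1 ⌊t⌋₊, f k = 0 := PS_zero f h4
  rw [h5, zero_mul]

/-- integral representation of the `L`-series -/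
theorem LS_eq {f : ℕ → ℂ} {C : ℝ} (h : ∀ᶠ t : ℝ in atTop, √t * ‖PS f t‖ ≤ C) {s : ℂ}
    (hs : 1 < s.re) (hS : LSeriesSummable f s) : LSeries f s = s * ML f s := by
  rw [ML_eq]
  refine LSeries_eq_mul_integral f le_rfl (by linarith) hS ?_
  have h1 := (PS_top h).comp_tendsto tendsto_natCast_atTop_atTop
  have h2 : (fun n : ℕ => ∑ k ∈ Finset.Icc 1 n, f k) = PS f ∘ (fun n : ℕ => (n : ℝ)) := by
    funext n; simp [PS]
  rw [h2]
  refine h1.trans ?_
  refine Asymptotics.IsBigO.of_bound 1 ?_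
  filter_upwards [eventually_ge_atTop 1] with n hn
  have hn1 : (1 : ℝ) ≤ n := by exact_mod_cast hn
  simp only [Function.comp, Real.rpow_zero, norm_one, mul_one]
  rw [Real.norm_of_nonneg (Real.rpow_nonneg (Nat.cast_nonneg n) _)]
  exact Real.rpow_le_one_of_one_le_of_nonpos hn1 (by norm_num)

/-- the bound for real `σ` near `-1/2` -/
theorem ML_bound {f : ℕ → ℂ} {C : ℝ} (hC : 0 ≤ C) (h : ∀ᶠ t : ℝ in atTop, √t * ‖PS f t‖ ≤ C) :
    ∃ K : ℝ, ∀ σ : ℝ, -(1 / 2) < σ → σ < 0 → ‖ML f σ‖ ≤ K + C / (σ + 1 / 2) := by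
  obtain ⟨T, hT⟩ := eventually_atTop.1 h
  set T' : ℝ := max T 1 with hT'
  set A : ℝ := ∑ k ∈ Finset.Icc 1 ⌊T'⌋₊, ‖f k‖ with hA
  have hA0 : 0 ≤ A := Finset.sum_nonneg fun _ _ => norm_nonneg _
  refine ⟨A * (T' - 1), fun σ h1 h2 => ?_⟩
  have hint : IntegrableOn (fun t : ℝ => t ^ (-σ - 3 / 2)) (Ioi 1) :=
    integrableOn_Ioi_rpow_of_lt (by linarith) one_pos
  have hind : IntegrableOn (fun t : ℝ => (Iic T').indicator (fun _ => A) t) (Ioi 1) := by
    rw [IntegrableOn, integrable_indicator_iff measurableSet_Iic, IntegrableOn,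
      Measure.restrict_restrict measurableSet_Iic]
    refine integrableOn_const (μ := volume) (s := Iic T' ∩ Ioi 1) ?_ ?_
    · have : Iic T' ∩ Ioi 1 ⊆ Ioc 1 T' := fun x hx => ⟨hx.2, hx.1⟩
      exact ((measure_mono this).trans_lt (by simp [Real.volume_Ioc])).ne
    · simp
  have hval1 : ∫ t in Ioi (1 : ℝ), t ^ (-σ - 3 / 2) = 1 / (σ + 1 / 2) := by
    rw [integral_Ioi_rpow_of_lt (by linarith) one_pos, Real.one_rpow]
    rw [show -σ - 3 / 2 + 1 = -(σ + 1 / 2) by ring, neg_div_neg_eq]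
  have hval2 : ∫ t in Ioi (1 : ℝ), (Iic T').indicator (fun _ => A) t = A * (T' - 1) := by
    rw [integral_indicator measurableSet_Iic, Measure.restrict_restrict measurableSet_Iic]
    have : Iic T' ∩ Ioi 1 = Ioc 1 T' := by ext x; simp [and_comm]
    rw [this, setIntegral_const, measureReal_def, Real.volume_Ioc,
      ENNReal.toReal_ofReal (by linarith [le_max_right T 1]), smul_eq_mul, mul_comm]
  rw [ML_eq]
  calc ‖∫ t in Ioi (1 : ℝ), (∑ k ∈ Finset.Icc 1 ⌊t⌋₊, f k) * (t : ℂ) ^ (-((σ : ℂ) + 1))‖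
      ≤ ∫ t in Ioi (1 : ℝ), ((Iic T').indicator (fun _ => A) t + C * t ^ (-σ - 3 / 2)) := by
        refine norm_integral_le_of_norm_le (hind.add (hint.const_mul C)) ?_
        refine (ae_restrict_iff' measurableSet_Ioi).2 (Eventually.of_forall fun t ht => ?_)
        have ht1 : 1 < t := ht
        have ht0 : 0 < t := by linarith
        rw [norm_mul, norm_cpow_eq_rpow_re_of_pos ht0]
        have e1 : (-((σ : ℂ) + 1)).re = -σ - 1 := by simp; ring
        rw [e1]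
        rcases le_or_gt t T' with h3 | h3
        · rw [indicator_of_mem (show t ∈ Iic T' from h3)]
          have e2 : ‖∑ k ∈ Finset.Icc 1 ⌊t⌋₊, f k‖ ≤ A := by
            refine (norm_sum_le _ _).trans ?_
            refine Finset.sum_le_sum_of_subset_of_nonneg ?_ fun _ _ _ => norm_nonneg _
            exact Finset.Icc_subset_Icc_right (Nat.floor_le_floor h3)
          have e3 : t ^ (-σ - 1) ≤ 1 := Real.rpow_le_one_of_one_le_of_nonpos ht1.le (by linarith)
          have e4 : 0 ≤ C * t ^ (-σ - 3 / 2) := mul_nonneg hC (Real.rpow_nonneg ht0.le _)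
          have e5 : 0 ≤ t ^ (-σ - 1) := Real.rpow_nonneg ht0.le _
          nlinarith [norm_nonneg (∑ k ∈ Finset.Icc 1 ⌊t⌋₊, f k)]
        · rw [indicator_of_notMem (show t ∉ Iic T' from not_le.2 h3), zero_add]
          have e2 := hT t ((le_max_left T 1).trans h3.le)
          have e3 : t ^ (-σ - 3 / 2) = t ^ (-σ - 1) / √t := by
            rw [Real.sqrt_eq_rpow, ← Real.rpow_sub ht0]; congr 1; ring
          have e5 : 0 ≤ t ^ (-σ - 1) := Real.rpow_nonneg ht0.le _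
          have e6 : ‖∑ k ∈ Finset.Icc 1 ⌊t⌋₊, f k‖ ≤ C / √t := by
            rw [le_div_iff₀ (Real.sqrt_pos.2 ht0), mul_comm]
            exact e2
          rw [e3]
          calc _ ≤ C / √t * t ^ (-σ - 1) := by gcongr
            _ = _ := by ring
    _ = A * (T' - 1) + C / (σ + 1 / 2) := by
        rw [integral_add hind (hint.const_mul C), integral_const_mul, hval1, hval2]
        ring

end Pool.Agent.J6H30.CMO
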