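import Mathlib
import Pool.Agent.J6H30.CMO.Mell

/-! The Mellin transform of the partial sums if the logarithmic mean of `√t |S(t)|` is bounded. -/

set_option autoImplicit false

open Complex Filter Topology MeasureTheory Set
open scoped ENNReal

namespace Pool.Agent.J6H30.CMO

/-- Tonelli -/
theorem tonelli {φ : ℝ → ℝ≥0∞} (hφ : Measurable φ) {δ : ℝ} (hδ : 0 < δ) :
    ∫⁻ t in Ioi (1 : ℝ), φ t * ENNReal.ofReal (t ^ (-δ)) =
      ∫⁻ X in Ioi (1 : ℝ), ENNReal.ofReal (δ * X ^ (-δ - 1)) * ∫⁻ t in Ioo 1 X, φ t := by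
  have hker : ∀ t : ℝ, 1 < t → ENNReal.ofReal (t ^ (-δ)) =
      ∫⁻ X in Ioi t, ENNReal.ofReal (δ * X ^ (-δ - 1)) := by
    intro t ht
    have ht0 : 0 < t := by linarith
    have h1 : IntegrableOn (fun X : ℝ => δ * X ^ (-δ - 1)) (Ioi t) :=
      (integrableOn_Ioi_rpow_of_lt (by linarith) ht0).const_mul δ
    rw [← ofReal_integral_eq_lintegral_ofReal h1 ?_]
    · congr 1
      rw [integral_const_mul, integral_Ioi_rpow_of_lt (by linarith) ht0]
      rw [show -δ - 1 + 1 = -δ by ring]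
      field_simp
    · refine (ae_restrict_iff' measurableSet_Ioi).2 (Eventually.of_forall fun X hX => ?_)
      have : 0 < X := ht0.trans hX
      positivity
  have hm1 : Measurable fun X : ℝ => ENNReal.ofReal (δ * X ^ (-δ - 1)) := by
    apply Measurable.ennreal_ofReal
    exact (measurable_id.pow_const _).const_mul δ
  -- both sides as double integrals over the line
  have e1 : ∫⁻ t in Ioi (1 : ℝ), φ t * ENNReal.ofReal (t ^ (-δ)) =
      ∫⁻ t, ∫⁻ X, (if 1 < t ∧ t < X then φ t * ENNReal.ofReal (δ * X ^ (-δ - 1)) else 0) := by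
    rw [← lintegral_indicator measurableSet_Ioi]
    refine lintegral_congr fun t => ?_
    by_cases ht : 1 < t
    · rw [indicator_of_mem (show t ∈ Ioi 1 from ht), hker t ht, ← lintegral_const_mul _ hm1,
        ← lintegral_indicator measurableSet_Ioi]
      refine lintegral_congr fun X => ?_
      by_cases hX : t < X
      · rw [indicator_of_mem (show X ∈ Ioi t from hX), if_pos ⟨ht, hX⟩]
      · rw [indicator_of_notMem (show X ∉ Ioi t from hX), if_neg (fun h => hX h.2)]
    · rw [indicator_of_notMem (show t ∉ Ioi 1 from ht)]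
      simp [ht]
  have e2 : ∫⁻ X in Ioi (1 : ℝ), ENNReal.ofReal (δ * X ^ (-δ - 1)) * ∫⁻ t in Ioo 1 X, φ t =
      ∫⁻ X, ∫⁻ t, (if 1 < t ∧ t < X then φ t * ENNReal.ofReal (δ * X ^ (-δ - 1)) else 0) := by
    rw [← lintegral_indicator measurableSet_Ioi]
    refine lintegral_congr fun X => ?_
    by_cases hX : 1 < X
    · rw [indicator_of_mem (show X ∈ Ioi 1 from hX), ← lintegral_const_mul _ hφ,
        ← lintegral_indicator measurableSet_Ioo]
      refine lintegral_congr fun t => ?_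
      by_cases ht : 1 < t ∧ t < X
      · rw [indicator_of_mem (show t ∈ Ioo 1 X from ht), if_pos ht, mul_comm]
      · rw [indicator_of_notMem (show t ∉ Ioo 1 X from ht), if_neg ht]
    · rw [indicator_of_notMem (show X ∉ Ioi 1 from hX)]
      have : ∀ t, ¬ (1 < t ∧ t < X) := fun t h => hX (h.1.trans h.2)
      simp [this]
  rw [e1, e2]
  refine lintegral_lintegral_swap ?_
  refine Measurable.aemeasurable ?_
  refine Measurable.ite ?_ ?_ measurable_const
  · have h1 : MeasurableSet {p : ℝ × ℝ | 1 < p.1} := measurableSet_lt measurable_const measurable_fst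
    have h2 : MeasurableSet {p : ℝ × ℝ | p.1 < p.2} := measurableSet_lt measurable_fst measurable_snd
    exact h1.inter h2
  · exact (hφ.comp measurable_fst).mul (hm1.comp measurable_snd)

/-- the logarithmic mean of `√t |S(t)|` is eventually at most `C` -/
def LogHyp (f : ℕ → ℂ) (C : ℝ) : Prop :=
  ∀ᶠ X : ℝ in atTop, ∫ t in (1 : ℝ)..X, ‖PS f t‖ / √t ≤ C * Real.log X

theorem phi_meas (f : ℕ → ℂ) : Measurable fun t : ℝ => ‖PS f t‖ / √t :=
  (PS_meas f).norm.div (Real.continuous_sqrt.measurable)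

theorem phi_nonneg (f : ℕ → ℂ) (t : ℝ) : 0 ≤ ‖PS f t‖ / √t := by positivity

theorem phi_int (f : ℕ → ℂ) {X : ℝ} (hX : 1 ≤ X) :
    IntegrableOn (fun t : ℝ => ‖PS f t‖ / √t) (Ioc 1 X) := by
  set A : ℝ := ∑ k ∈ Finset.Icc 1 ⌊X⌋₊, ‖f k‖ with hA
  have hA0 : 0 ≤ A := Finset.sum_nonneg fun _ _ => norm_nonneg _
  refine Measure.integrableOn_of_bounded (M := A) (by simp) (phi_meas f).aestronglyMeasurable ?_
  refine (ae_restrict_iff' measurableSet_Ioc).2 (Eventually.of_forall fun t ht => ?_)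
  rw [Real.norm_of_nonneg (phi_nonneg f t)]
  have e2 : ‖PS f t‖ ≤ A := by
    refine (norm_sum_le _ _).trans ?_
    refine Finset.sum_le_sum_of_subset_of_nonneg ?_ fun _ _ _ => norm_nonneg _
    exact Finset.Icc_subset_Icc_right (Nat.floor_le_floor ht.2)
  have h1 : 1 ≤ √t := Real.one_le_sqrt.2 ht.1.le
  calc ‖PS f t‖ / √t ≤ ‖PS f t‖ / 1 := by gcongr
    _ ≤ A := by rw [div_one]; exact e2

theorem lint_bound {f : ℕ → ℂ} {C : ℝ} (hC : 0 ≤ C) (h : LogHyp f C) :
    ∃ K : ℝ, 0 ≤ K ∧ ∀ δ : ℝ, 0 < δ →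
      ∫⁻ t in Ioi (1 : ℝ), ENNReal.ofReal (‖PS f t‖ / √t * t ^ (-δ)) ≤
        ENNReal.ofReal (K + C / δ) := by
  obtain ⟨X₁, hX₁⟩ := eventually_atTop.1 h
  set X₀ : ℝ := max X₁ 1 with hX₀
  have hX₀1 : 1 ≤ X₀ := le_max_right _ _
  set φ : ℝ → ℝ≥0∞ := fun t => ENNReal.ofReal (‖PS f t‖ / √t) with hφ
  have hφm : Measurable φ := (phi_meas f).ennreal_ofReal
  set ψ : ℝ → ℝ≥0∞ := fun t => ENNReal.ofReal (C / t) with hψ
  have hψm : Measurable ψ := (measurable_const.div measurable_id).ennreal_ofReal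
  have hval : ∀ X : ℝ, 1 ≤ X → ∫⁻ t in Ioo 1 X, φ t =
      ENNReal.ofReal (∫ t in (1 : ℝ)..X, ‖PS f t‖ / √t) := by
    intro X hX
    rw [intervalIntegral.integral_of_le hX, ofReal_integral_eq_lintegral_ofReal (phi_int f hX)
      (Eventually.of_forall fun t => phi_nonneg f t)]
    exact setLIntegral_congr Ioo_ae_eq_Ioc
  have hvalψ : ∀ X : ℝ, 1 ≤ X → ∫⁻ t in Ioo 1 X, ψ t = ENNReal.ofReal (C * Real.log X) := by
    intro X hX
    have hi : IntegrableOn (fun t : ℝ => C / t) (Ioc 1 X) := by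
      have : ContinuousOn (fun t : ℝ => C / t) (Icc 1 X) := by
        refine continuousOn_const.div continuousOn_id ?_
        intro t ht
        have : (0 : ℝ) < t := by linarith [ht.1]
        exact this.ne'
      exact (this.integrableOn_compact isCompact_Icc).mono_set Ioc_subset_Icc_self
    have h1 : ∫ t in Ioc 1 X, C / t = C * Real.log X := by
      rw [← intervalIntegral.integral_of_le hX]
      simp_rw [div_eq_mul_inv]
      rw [intervalIntegral.integral_const_mul, integral_inv_of_pos one_pos (by linarith), div_one]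
    rw [← h1, ofReal_integral_eq_lintegral_ofReal hi ?_]
    · exact setLIntegral_congr Ioo_ae_eq_Ioc
    · refine (ae_restrict_iff' measurableSet_Ioc).2 (Eventually.of_forall fun t ht => ?_)
      have : (0 : ℝ) < t := by linarith [ht.1]
      positivity
  set K : ℝ := ∫ t in (1 : ℝ)..X₀, ‖PS f t‖ / √t with hK
  have hK0 : 0 ≤ K := intervalIntegral.integral_nonneg hX₀1 fun t _ => phi_nonneg f t
  refine ⟨K, hK0, fun δ hδ => ?_⟩
  have hle : ∀ X : ℝ, 1 ≤ X → ∫⁻ t in Ioo 1 X, φ t ≤ ENNReal.ofReal K + ∫⁻ t in Ioo 1 X, ψ t := by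
    intro X hX
    rcases le_or_gt X X₀ with h1 | h1
    · refine le_trans ?_ le_self_add
      rw [hK, ← hval X₀ hX₀1]
      exact lintegral_mono_set (Ioo_subset_Ioo_right h1)
    · refine le_trans ?_ le_add_self
      rw [hval X hX, hvalψ X hX]
      exact ENNReal.ofReal_le_ofReal (hX₁ X ((le_max_left _ _).trans h1.le))
  have hker : ∫⁻ X in Ioi (1 : ℝ), ENNReal.ofReal (δ * X ^ (-δ - 1)) = 1 := by
    have h1 : IntegrableOn (fun X : ℝ => δ * X ^ (-δ - 1)) (Ioi 1) :=
      (integrableOn_Ioi_rpow_of_lt (by linarith) one_pos).const_mul δ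
    rw [← ofReal_integral_eq_lintegral_ofReal h1 ?_]
    · rw [integral_const_mul, integral_Ioi_rpow_of_lt (by linarith) one_pos]
      rw [show -δ - 1 + 1 = -δ by ring, Real.one_rpow]
      have : δ * (-1 / -δ) = 1 := by field_simp
      rw [this, ENNReal.ofReal_one]
    · refine (ae_restrict_iff' measurableSet_Ioi).2 (Eventually.of_forall fun X hX => ?_)
      have : (0 : ℝ) < X := lt_trans one_pos hX
      positivity
  have hm1 : Measurable fun X : ℝ => ENNReal.ofReal (δ * X ^ (-δ - 1)) := by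
    apply Measurable.ennreal_ofReal
    exact (measurable_id.pow_const _).const_mul δ
  calc ∫⁻ t in Ioi (1 : ℝ), ENNReal.ofReal (‖PS f t‖ / √t * t ^ (-δ))
      = ∫⁻ t in Ioi (1 : ℝ), φ t * ENNReal.ofReal (t ^ (-δ)) := by
        refine lintegral_congr fun t => ?_
        rw [ENNReal.ofReal_mul (phi_nonneg f t)]
    _ = ∫⁻ X in Ioi (1 : ℝ), ENNReal.ofReal (δ * X ^ (-δ - 1)) * ∫⁻ t in Ioo 1 X, φ t :=
        tonelli hφm hδ
    _ ≤ ∫⁻ X in Ioi (1 : ℝ), (ENNReal.ofReal (δ * X ^ (-δ - 1)) * ENNReal.ofReal K +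
          ENNReal.ofReal (δ * X ^ (-δ - 1)) * ∫⁻ t in Ioo 1 X, ψ t) := by
        refine setLIntegral_mono_ae' measurableSet_Ioi (Eventually.of_forall fun X hX => ?_)
        rw [← mul_add]
        gcongr
        exact hle X (le_of_lt hX)
    _ = ENNReal.ofReal K + ∫⁻ t in Ioi (1 : ℝ), ψ t * ENNReal.ofReal (t ^ (-δ)) := by
        rw [lintegral_add_left (hm1.mul_const _), lintegral_mul_const _ hm1, hker, one_mul,
          tonelli hψm hδ]
    _ = ENNReal.ofReal K + ENNReal.ofReal (C / δ) := by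
        congr 1
        have h1 : IntegrableOn (fun t : ℝ => C * t ^ (-δ - 1)) (Ioi 1) :=
          (integrableOn_Ioi_rpow_of_lt (by linarith) one_pos).const_mul C
        have h2 : ∫ t in Ioi (1 : ℝ), C * t ^ (-δ - 1) = C / δ := by
          rw [integral_const_mul, integral_Ioi_rpow_of_lt (by linarith) one_pos]
          rw [show -δ - 1 + 1 = -δ by ring, Real.one_rpow]
          field_simp
        rw [← h2, ofReal_integral_eq_lintegral_ofReal h1 ?_]
        · refine setLIntegral_congr_fun measurableSet_Ioi fun t ht => ?_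
          have ht0 : (0 : ℝ) < t := lt_trans one_pos ht
          simp only [hψ]
          rw [← ENNReal.ofReal_mul (by positivity)]
          congr 1
          rw [Real.rpow_sub ht0, Real.rpow_one]
          ring
        · refine (ae_restrict_iff' measurableSet_Ioi).2 (Eventually.of_forall fun X hX => ?_)
          have : (0 : ℝ) < X := lt_trans one_pos hX
          positivity
    _ = ENNReal.ofReal (K + C / δ) := by
        rw [ENNReal.ofReal_add hK0 (by positivity)]

theorem int_of {f : ℕ → ℂ} {C : ℝ} (hC : 0 ≤ C) (h : LogHyp f C) {δ : ℝ} (hδ : 0 < δ) :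
    IntegrableOn (fun t : ℝ => ‖PS f t‖ / √t * t ^ (-δ)) (Ioi 1) := by
  obtain ⟨K, hK0, hK⟩ := lint_bound hC h
  refine ⟨((phi_meas f).mul (measurable_id.pow_const _)).aestronglyMeasurable, ?_⟩
  rw [hasFiniteIntegral_iff_ofReal ?_]
  · exact lt_of_le_of_lt (hK δ hδ) ENNReal.ofReal_lt_top
  · refine (ae_restrict_iff' measurableSet_Ioi).2 (Eventually.of_forall fun X hX => ?_)
    have : (0 : ℝ) < X := lt_trans one_pos hX
    positivity

/-- the Mellin transform -/
noncomputable def MT (f : ℕ → ℂ) (s : ℂ) : ℂ := ∫ t in Ioi (1 : ℝ), PS f t * (t : ℂ) ^ (-(s + 1))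

theorem MT_bound {f : ℕ → ℂ} {C : ℝ} (hC : 0 ≤ C) (h : LogHyp f C) :
    ∃ K : ℝ, ∀ σ : ℝ, -(1 / 2) < σ → σ < 0 → ‖MT f σ‖ ≤ K + C / (σ + 1 / 2) := by
  obtain ⟨K, hK0, hK⟩ := lint_bound hC h
  refine ⟨K, fun σ h1 _ => ?_⟩
  have hδ : 0 < σ + 1 / 2 := by linarith
  have hi := int_of hC h hδ
  have h2 : ∫ t in Ioi (1 : ℝ), ‖PS f t‖ / √t * t ^ (-(σ + 1 / 2)) ≤ K + C / (σ + 1 / 2) := by
    have h3 := hK _ hδ
    rw [← ofReal_integral_eq_lintegral_ofReal hi ?_] at h3
    · exact (ENNReal.ofReal_le_ofReal_iff (by positivity)).1 h3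
    · refine (ae_restrict_iff' measurableSet_Ioi).2 (Eventually.of_forall fun X hX => ?_)
      have : (0 : ℝ) < X := lt_trans one_pos hX
      positivity
  refine le_trans (norm_integral_le_of_norm_le hi ?_) h2
  refine (ae_restrict_iff' measurableSet_Ioi).2 (Eventually.of_forall fun t ht => ?_)
  have ht0 : (0 : ℝ) < t := lt_trans one_pos ht
  rw [norm_mul, norm_cpow_eq_rpow_re_of_pos ht0]
  have e1 : (-((σ : ℂ) + 1)).re = -(1 / 2) + -(σ + 1 / 2) := by simp; ring
  rw [e1, Real.rpow_add ht0, ← mul_assoc, Real.rpow_neg ht0.le (1 / 2), ← Real.sqrt_eq_rpow,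
    div_eq_mul_inv ‖PS f t‖]

theorem MT_diff {f : ℕ → ℂ} {C : ℝ} (hC : 0 ≤ C) (h : LogHyp f C) (s : ℂ)
    (hs : -(1 / 2) < s.re) : DifferentiableAt ℂ (MT f) s := by
  set δ : ℝ := (s.re + 1 / 2) / 3 with hδ
  have hδ0 : 0 < δ := by rw [hδ]; linarith
  have hres : s.re = -(1 / 2) + 3 * δ := by rw [hδ]; ring
  have hmeas : ∀ z : ℂ, Measurable fun t : ℝ => PS f t * (t : ℂ) ^ (-(z + 1)) := fun z =>
    (PS_meas f).mul (Complex.measurable_ofReal.pow_const _)
  have key := hasDerivAt_integral_of_dominated_loc_of_deriv_le (𝕜 := ℂ)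
    (μ := volume.restrict (Ioi (1 : ℝ))) (F := fun z t => PS f t * (t : ℂ) ^ (-(z + 1)))
    (F' := fun z t => PS f t * ((t : ℂ) ^ (-(z + 1)) * Complex.log t * (-1))) (x₀ := s)
    (s := Metric.ball s δ) (bound := fun t => δ⁻¹ * (‖PS f t‖ / √t * t ^ (-δ)))
    (Metric.ball_mem_nhds s hδ0) (Eventually.of_forall fun z => (hmeas z).aestronglyMeasurable)
    ?_ ?_ ?_ ((int_of hC h hδ0).const_mul _) ?_
  · exact key.2.differentiableAt
  · refine (int_of hC h (δ := 3 * δ) (by linarith)).mono' (hmeas s).aestronglyMeasurable ?_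
    refine (ae_restrict_iff' measurableSet_Ioi).2 (Eventually.of_forall fun t ht => ?_)
    have ht0 : (0 : ℝ) < t := lt_trans one_pos ht
    rw [norm_mul, norm_cpow_eq_rpow_re_of_pos ht0]
    have e1 : (-(s + 1)).re = -(1 / 2) + -(3 * δ) := by
      rw [neg_re, add_re, one_re, hres]; ring
    rw [e1, Real.rpow_add ht0, ← mul_assoc, Real.rpow_neg ht0.le (1 / 2), ← Real.sqrt_eq_rpow,
      div_eq_mul_inv]
  · refine Measurable.aestronglyMeasurable ?_
    exact (PS_meas f).mul (((Complex.measurable_ofReal.pow_const _).mul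
      (Complex.measurable_log.comp Complex.measurable_ofReal)).mul_const _)
  · refine (ae_restrict_iff' measurableSet_Ioi).2 (Eventually.of_forall fun t ht z hz => ?_)
    have ht1 : (1 : ℝ) < t := ht
    have ht0 : (0 : ℝ) < t := lt_trans one_pos ht
    rw [Metric.mem_ball, dist_eq] at hz
    have h2 := (abs_lt.1 (lt_of_le_of_lt (Complex.abs_re_le_norm (z - s)) hz)).1
    rw [sub_re] at h2
    rw [norm_mul, norm_mul, norm_mul, norm_neg, norm_one, mul_one,
      norm_cpow_eq_rpow_re_of_pos ht0]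
    have e2 : ‖Complex.log (t : ℂ)‖ = Real.log t := by
      rw [← Complex.ofReal_log ht0.le, norm_real, Real.norm_of_nonneg (Real.log_nonneg ht1.le)]
    rw [e2]
    have h3 : Real.log t ≤ t ^ δ / δ := Real.log_le_rpow_div ht0.le hδ0
    have h4 : t ^ ((-(z + 1)).re) ≤ t ^ (-(1 / 2) + -(2 * δ)) := by
      refine Real.rpow_le_rpow_of_exponent_le ht1.le ?_
      rw [neg_re, add_re, one_re]; linarith
    have h5 : 0 ≤ Real.log t := Real.log_nonneg ht1.le
    calc ‖PS f t‖ * (t ^ ((-(z + 1)).re) * Real.log t)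
        ≤ ‖PS f t‖ * (t ^ (-(1 / 2) + -(2 * δ)) * (t ^ δ / δ)) := by gcongr
      _ = δ⁻¹ * (‖PS f t‖ / √t * t ^ (-δ)) := by
        have e3 : t ^ (-(1 / 2) + -(2 * δ)) * t ^ δ = (√t)⁻¹ * t ^ (-δ) := by
          rw [← Real.rpow_add ht0, Real.sqrt_eq_rpow, ← Real.rpow_neg ht0.le, ← Real.rpow_add ht0]
          congr 1; ring
        have e4 : ‖PS f t‖ * (t ^ (-(1 / 2) + -(2 * δ)) * (t ^ δ / δ)) =
            δ⁻¹ * (‖PS f t‖ * (t ^ (-(1 / 2) + -(2 * δ)) * t ^ δ)) := by ring
        rw [e4, e3]; ring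
  · refine (ae_restrict_iff' measurableSet_Ioi).2 (Eventually.of_forall fun t ht z _ => ?_)
    have ht0 : (0 : ℝ) < t := lt_trans one_pos ht
    have htc : (t : ℂ) ≠ 0 := by exact_mod_cast ht0.ne'
    have h1 : HasDerivAt (fun z : ℂ => -(z + 1)) (-1) z := ((hasDerivAt_id z).add_const 1).neg
    exact (h1.const_cpow (Or.inl htc)).const_mul _

/-- integral representation of the `L`-series -/
theorem LS_eq' {f : ℕ → ℂ} {B : ℝ} (hb : ∀ n : ℕ, ‖∑ k ∈ Finset.Icc 1 n, f k‖ ≤ B) {s : ℂ}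
    (hs : 1 < s.re) (hS : LSeriesSummable f s) : LSeries f s = s * MT f s := by
  refine LSeries_eq_mul_integral f le_rfl (by linarith) hS ?_
  refine Asymptotics.IsBigO.of_bound B ?_
  refine Eventually.of_forall fun n => ?_
  simpa using hb n

end Pool.Agent.J6H30.CMO
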