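import Mathlib
import Pool.Agent.J6H30.CMO.Core

/-! Perturbation of a completely multiplicative function. -/

set_option autoImplicit false

open Complex Filter Topology ArithmeticFunction

namespace Pool.Agent.J6H30.CMO

/-- the completely multiplicative function with values `z p` at the primes -/
noncomputable def cmf (z : ℕ → ℂ) (n : ℕ) : ℂ := n.factorization.prod fun p k => z p ^ k

theorem cmf_CM (z : ℕ → ℂ) : CM (cmf z) := by
  refine ⟨by simp [cmf], fun m n hm hn => ?_⟩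
  unfold cmf
  rw [Nat.factorization_mul hm.ne' hn.ne', Finsupp.prod_add_index']
  · intro p; simp
  · intro p a b; exact pow_add _ _ _

theorem cmf_prime (z : ℕ → ℂ) {p : ℕ} (hp : p.Prime) : cmf z p = z p := by
  simp [cmf, hp.factorization]

theorem cmf_conj (z : ℕ → ℂ) (n : ℕ) :
    (starRingEnd ℂ) (cmf z n) = cmf (fun p => (starRingEnd ℂ) (z p)) n := by
  simp [cmf, Finsupp.prod, map_prod]

/-- `μ f` -/
noncomputable def muf (f : ℕ → ℂ) : ArithmeticFunction ℂ :=
  ⟨fun n => ((ArithmeticFunction.moebius n : ℤ) : ℂ) * cm f n, by simp⟩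

theorem muf_apply (f : ℕ → ℂ) (n : ℕ) :
    muf f n = ((ArithmeticFunction.moebius n : ℤ) : ℂ) * cm f n := rfl

theorem muf_mult {f : ℕ → ℂ} (h : CM f) : (muf f).IsMultiplicative := by
  rw [IsMultiplicative.iff_ne_zero]
  refine ⟨by simp [muf_apply, (cm_mult h).1], ?_⟩
  intro m n _ _ hmn
  rw [muf_apply, muf_apply, muf_apply, (cm_mult h).2 hmn,
    isMultiplicative_moebius.map_mul_of_coprime hmn]
  push_cast; ring

theorem ps_muf {f : ℕ → ℂ} (h : CM f) {p : ℕ} (hp : p.Prime) :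
    ps p (muf f) = 1 - PowerSeries.C (f p) * PowerSeries.X := by
  ext k
  rw [ps, PowerSeries.coeff_mk, muf_apply, cm_apply f (pow_pos hp.pos k).ne', h.pow hp.pos]
  rcases k with _ | k
  · simp
  · rw [moebius_apply_prime_pow hp (Nat.succ_ne_zero k), map_sub, PowerSeries.coeff_succ_mul_X,
      PowerSeries.coeff_one, if_neg (Nat.succ_ne_zero k), PowerSeries.coeff_C]
    rcases k with _ | k
    · simp
    · simp

/-- the quotient of `cmf z` by `f` -/
noncomputable def gq' (f z : ℕ → ℂ) : ArithmeticFunction ℂ := muf f * cm (cmf z)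

theorem gq'_mult {f : ℕ → ℂ} (h : CM f) (z : ℕ → ℂ) : (gq' f z).IsMultiplicative :=
  (muf_mult h).mul (cm_mult (cmf_CM z))

theorem ps_gq' {f : ℕ → ℂ} (h : CM f) (z : ℕ → ℂ) {p : ℕ} (hp : p.Prime) :
    ps p (gq' f z) = (1 - PowerSeries.C (f p) * PowerSeries.X) * geo (z p) := by
  rw [gq', ps_mul hp, ps_muf h hp, ps_cm (cmf_CM z) hp.pos, cmf_prime z hp]

theorem cm_mul_gq' {f : ℕ → ℂ} (h : CM f) (z : ℕ → ℂ) : cm f * gq' f z = cm (cmf z) := by
  rw [IsMultiplicative.eq_iff_eq_on_prime_powers _ ((cm_mult h).mul (gq'_mult h z)) _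
    (cm_mult (cmf_CM z))]
  intro p k hp
  have h1 : ps p (cm f * gq' f z) = ps p (cm (cmf z)) := by
    rw [ps_mul hp, ps_gq' h z hp, ps_cm h hp.pos, ps_cm (cmf_CM z) hp.pos, cmf_prime z hp,
      ← mul_assoc, geo_mul, one_mul]
  have h2 := congrArg (PowerSeries.coeff k) h1
  simpa [ps] using h2

theorem gq'_pow {f : ℕ → ℂ} (h : CM f) (z : ℕ → ℂ) {p : ℕ} (hp : p.Prime) (k : ℕ) :
    gq' f z (p ^ (k + 1)) = (z p - f p) * z p ^ k := by
  have h1 : gq' f z (p ^ (k + 1)) = PowerSeries.coeff (k + 1) (ps p (gq' f z)) := by simp [ps]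
  rw [h1, ps_gq' h z hp, sub_mul, one_mul, map_sub, mul_assoc, PowerSeries.coeff_C_mul,
    PowerSeries.coeff_succ_X_mul]
  simp [geo, pow_succ]
  ring

/-- the weight `|g(n)| √n` -/
noncomputable def wt (f z : ℕ → ℂ) (n : ℕ) : ℝ := ‖gq' f z n‖ * √(n : ℝ)

theorem wt_nonneg (f z : ℕ → ℂ) (n : ℕ) : 0 ≤ wt f z n := by unfold wt; positivity

theorem wt_one {f : ℕ → ℂ} (h : CM f) (z : ℕ → ℂ) : wt f z 1 = 1 := by
  simp [wt, (gq'_mult h z).1]

theorem wt_mul {f : ℕ → ℂ} (h : CM f) (z : ℕ → ℂ) {m n : ℕ} (hmn : m.Coprime n) :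
    wt f z (m * n) = wt f z m * wt f z n := by
  unfold wt
  rw [(gq'_mult h z).2 hmn, norm_mul, Nat.cast_mul, Real.sqrt_mul (Nat.cast_nonneg m)]
  ring

/-- the hypothesis on the perturbation -/
structure Per (f z : ℕ → ℂ) : Prop where
  alt : ∀ p : ℕ, p.Prime → z p = f p ∨ ‖z p‖ ≤ (p : ℝ)⁻¹
  summ : Summable fun p : Nat.Primes => ‖z p - f p‖ * √((p : ℕ) : ℝ)

theorem wt_local {f z : ℕ → ℂ} (h : CM f) (hz : Per f z) {p : ℕ} (hp : p.Prime) :
    Summable (fun k => ‖wt f z (p ^ k)‖) ∧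
      ∑' k, wt f z (p ^ k) ≤ 1 + 4 * (‖z p - f p‖ * √(p : ℝ)) := by
  have hp0 : (0 : ℝ) < p := by exact_mod_cast hp.pos
  have hp2 : (2 : ℝ) ≤ p := by exact_mod_cast hp.two_le
  have hsq : ∀ k : ℕ, √((p ^ (k + 1) : ℕ) : ℝ) = √(p : ℝ) * √(p : ℝ) ^ k := by
    intro k
    rw [Nat.cast_pow, pow_succ, mul_comm, Real.sqrt_mul hp0.le]
    congr 1
    rw [Real.sqrt_eq_iff_mul_self_eq (by positivity) (by positivity), ← pow_add, ← two_mul,
      pow_mul, Real.sq_sqrt hp0.le]
  have e1 : ∀ k, wt f z (p ^ (k + 1)) =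
      (‖z p - f p‖ * √(p : ℝ)) * (‖z p‖ * √(p : ℝ)) ^ k := by
    intro k
    rw [wt, gq'_pow h z hp, norm_mul, norm_pow, hsq, mul_pow]; ring
  set d := ‖z p - f p‖ * √(p : ℝ) with hd
  have hd0 : 0 ≤ d := by positivity
  rcases hz.alt p hp with h1 | h1
  · have hd' : d = 0 := by rw [hd, h1, sub_self, norm_zero, zero_mul]
    have e2 : ∀ k, wt f z (p ^ (k + 1)) = 0 := by intro k; rw [e1, hd', zero_mul]
    have hs : HasSum (fun k => wt f z (p ^ k)) 1 := by
      have := hasSum_single (f := fun k => wt f z (p ^ k)) 0 (by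
        intro k hk
        obtain ⟨m, rfl⟩ := Nat.exists_eq_succ_of_ne_zero hk
        exact e2 m)
      simpa [wt_one h z] using this
    refine ⟨hs.summable.norm, ?_⟩
    rw [hs.tsum_eq]; linarith
  · set x := ‖z p‖ * √(p : ℝ) with hx
    have hx0 : 0 ≤ x := by positivity
    have hx1 : x ≤ 3 / 4 := by
      have h2 : x ≤ (p : ℝ)⁻¹ * √(p : ℝ) := by rw [hx]; gcongr
      have h3 : (p : ℝ)⁻¹ * √(p : ℝ) = (√(p : ℝ))⁻¹ := by
        have h4 : √(p : ℝ) * √(p : ℝ) = p := Real.mul_self_sqrt hp0.le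
        have h5 : 0 < √(p : ℝ) := Real.sqrt_pos.2 hp0
        field_simp
        nlinarith
      have h4 : (4 / 3 : ℝ) ≤ √(p : ℝ) := by
        rw [Real.le_sqrt (by norm_num) hp0.le]; linarith
      rw [h3] at h2
      refine h2.trans ?_
      rw [inv_le_comm₀ (by positivity) (by norm_num)]
      linarith
    have hgs : HasSum (fun k => wt f z (p ^ (k + 1))) (d * (1 - x)⁻¹) := by
      simp only [e1]
      exact (hasSum_geometric_of_lt_one hx0 (by linarith)).mul_left d
    have hs : HasSum (fun k => wt f z (p ^ k)) (wt f z (p ^ 0) + d * (1 - x)⁻¹) := by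
      have := (hasSum_nat_add_iff (f := fun k => wt f z (p ^ k)) 1).1 hgs
      simpa [add_comm] using this
    refine ⟨hs.summable.norm, ?_⟩
    rw [hs.tsum_eq, pow_zero, wt_one h z]
    have h6 : (1 - x)⁻¹ ≤ 4 := by
      rw [inv_le_comm₀ (by linarith) (by norm_num)]; linarith
    nlinarith

theorem wt_summable {f z : ℕ → ℂ} (h : CM f) (hz : Per f z) :
    Summable (fun n => wt f z n) := by
  set D : ℝ := ∑' p : Nat.Primes, ‖z p - f p‖ * √((p : ℕ) : ℝ) with hD
  have h0 : wt f z 0 = 0 := by simp [wt]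
  refine summable_of_sum_le (c := Real.exp (4 * D)) (fun n => wt_nonneg f z n) fun T => ?_
  -- T without 0 lies in the smooth numbers below N
  set N : ℕ := T.sup id + 1 with hN
  have h4 := EulerProduct.summable_and_hasSum_smoothNumbers_prod_primesBelow_tsum
      (f := wt f z) (wt_one h z) (fun {m n} hmn => wt_mul h z hmn)
      (fun {p} hp => (wt_local h hz hp).1) N
  have h5 : ∑ n ∈ T, wt f z n ≤ ∑' m : N.smoothNumbers, wt f z m := by
    have h6 : HasSum ((N.smoothNumbers).indicator (wt f z)) (∑' m : N.smoothNumbers, wt f z m) :=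
      (hasSum_subtype_iff_indicator).1 h4.2.summable.hasSum
    have h7 := sum_le_hasSum T (fun n _ => Set.indicator_nonneg (fun n _ => wt_nonneg f z n) n) h6
    refine le_trans (le_of_eq ?_) h7
    refine Finset.sum_congr rfl fun n hn => ?_
    rcases Nat.eq_zero_or_pos n with rfl | hn0
    · rw [h0, Set.indicator_apply]
      split_ifs
      · exact h0.symm
      · rfl
    · have hlt : n < N := by
        have : n ≤ T.sup id := Finset.le_sup (f := id) hn
        omega
      rw [Set.indicator_of_mem (Nat.mem_smoothNumbers_of_lt hn0 hlt)]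
  refine h5.trans ?_
  rw [h4.2.tsum_eq]
  calc ∏ p ∈ N.primesBelow, ∑' k, wt f z (p ^ k)
      ≤ ∏ p ∈ N.primesBelow, Real.exp (4 * (‖z p - f p‖ * √(p : ℝ))) := by
        refine Finset.prod_le_prod (fun p _ => tsum_nonneg fun k => wt_nonneg f z _) fun p hp => ?_
        refine ((wt_local h hz (Nat.prime_of_mem_primesBelow hp)).2).trans ?_
        rw [add_comm]
        exact Real.add_one_le_exp _
    _ = Real.exp (4 * ∑ p ∈ N.primesBelow, (‖z p - f p‖ * √(p : ℝ))) := by
        rw [← Real.exp_sum, Finset.mul_sum]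
    _ ≤ Real.exp (4 * D) := by
        have h8 : HasSum (Set.indicator {p : ℕ | p.Prime} fun p => ‖z p - f p‖ * √(p : ℝ)) D :=
          (hasSum_subtype_iff_indicator
            (f := fun p : ℕ => ‖z p - f p‖ * √(p : ℝ)) (s := {p : ℕ | p.Prime})).1 hz.summ.hasSum
        have h9 := sum_le_hasSum N.primesBelow
          (fun n _ => Set.indicator_nonneg (fun p _ => by positivity) n) h8
        have h10 : ∑ p ∈ N.primesBelow, (‖z p - f p‖ * √(p : ℝ)) ≤ D := by
          refine le_trans (le_of_eq ?_) h9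
          refine Finset.sum_congr rfl fun p hp => ?_
          rw [Set.indicator_of_mem (show p ∈ {p : ℕ | p.Prime} from Nat.prime_of_mem_primesBelow hp)]
        gcongr

theorem gq'_term_le {f z : ℕ → ℂ} {s : ℂ} (hs : -(1 / 2) ≤ s.re) (n : ℕ) :
    ‖LSeries.term (fun n => gq' f z n) s n‖ ≤ wt f z n := by
  rcases Nat.eq_zero_or_pos n with rfl | hn
  · simpa using wt_nonneg f z 0
  · have hn0 : (0 : ℝ) < n := by exact_mod_cast hn
    have hn1 : (1 : ℝ) ≤ n := by exact_mod_cast hn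
    rw [LSeries.term_of_ne_zero hn.ne', norm_div, Complex.norm_natCast_cpow_of_pos hn, wt,
      div_eq_mul_inv, ← Real.rpow_neg hn0.le, Real.sqrt_eq_rpow]
    gcongr
    linarith

theorem gq'_summable {f z : ℕ → ℂ} (h : CM f) (hz : Per f z) {s : ℂ} (hs : -(1 / 2) ≤ s.re) :
    LSeriesSummable (fun n => gq' f z n) s :=
  Summable.of_norm_bounded (wt_summable h hz) (gq'_term_le hs)

theorem gq'_diff {f z : ℕ → ℂ} (h : CM f) (hz : Per f z) {s : ℂ} (hs : -(1 / 2) < s.re) :
    DifferentiableAt ℂ (LSeries (fun n => gq' f z n)) s := by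
  refine (LSeries_hasDerivAt ?_).differentiableAt
  have h1 := (gq'_summable h hz (s := ((-(1 / 2) : ℝ) : ℂ)) (by simp)).abscissaOfAbsConv_le
  refine lt_of_le_of_lt h1 ?_
  rw [ofReal_re]
  exact_mod_cast hs

/-- the bound for `G(σ)` -/
noncomputable def Wt (f z : ℕ → ℂ) : ℝ := ∑' n, wt f z n

theorem Wt_pos {f : ℕ → ℂ} (h : CM f) {z : ℕ → ℂ} (hz : Per f z) : 0 < Wt f z := by
  have h1 := (wt_summable h hz).le_tsum 1 (fun n _ => wt_nonneg f z n)
  rw [wt_one h z] at h1
  exact lt_of_lt_of_le one_pos h1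

theorem gq'_norm {f z : ℕ → ℂ} (h : CM f) (hz : Per f z) {s : ℂ} (hs : -(1 / 2) ≤ s.re) :
    ‖LSeries (fun n => gq' f z n) s‖ ≤ Wt f z :=
  tsum_of_norm_bounded (wt_summable h hz).hasSum (gq'_term_le hs)

theorem cmf_LSeries {f z : ℕ → ℂ} (h : CM f) (hz : Per f z) {s : ℂ} (hs : -(1 / 2) ≤ s.re)
    (hf : LSeriesSummable f s) : LSeriesSummable (cmf z) s ∧
    LSeries (cmf z) s = LSeries f s * LSeries (fun n => gq' f z n) s := by
  have h1 := cm_summable hf
  have h2 := gq'_summable h hz hs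
  have h3 := LSeriesSummable_mul h1 h2
  have h4 := LSeries_mul' h1 h2
  rw [cm_mul_gq' h z] at h3 h4
  refine ⟨(LSeriesSummable_congr s (fun {n} hn => (cm_apply (cmf z) hn))).1 h3, ?_⟩
  rw [cm_LSeries, cm_LSeries] at h4
  exact h4

end Pool.Agent.J6H30.CMO
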