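import Mathlib
import Pool.Agent.J6H30.CMO.Arith

/-! Removing finitely many primes. -/

set_option autoImplicit false

open Complex Filter Topology

namespace Pool.Agent.J6H30.CMO

open Classical in
/-- `f` with `f(p)` replaced by `0` for `p ∈ B` -/
noncomputable def rem (B : Finset ℕ) (f : ℕ → ℂ) (n : ℕ) : ℂ := if ∃ p ∈ B, p ∣ n then 0 else f n

theorem rem_CM {f : ℕ → ℂ} (h : CM f) {B : Finset ℕ} (hB : ∀ p ∈ B, p.Prime) : CM (rem B f) := by
  refine ⟨?_, ?_⟩
  · rw [rem, if_neg, h.one]
    rintro ⟨p, hp, hd⟩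
    exact (hB p hp).one_lt.ne' (Nat.dvd_one.1 hd)
  · intro m n hm hn
    unfold rem
    by_cases h1 : ∃ p ∈ B, p ∣ m
    · have : ∃ p ∈ B, p ∣ m * n := by
        obtain ⟨p, hp, hd⟩ := h1
        exact ⟨p, hp, hd.mul_right n⟩
      rw [if_pos this, if_pos h1, zero_mul]
    · by_cases h2 : ∃ p ∈ B, p ∣ n
      · have : ∃ p ∈ B, p ∣ m * n := by
          obtain ⟨p, hp, hd⟩ := h2
          exact ⟨p, hp, hd.mul_left m⟩
        rw [if_pos this, if_pos h2, mul_zero]
      · have : ¬ ∃ p ∈ B, p ∣ m * n := by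
          rintro ⟨p, hp, hd⟩
          rcases (hB p hp).dvd_mul.1 hd with h3 | h3
          · exact h1 ⟨p, hp, h3⟩
          · exact h2 ⟨p, hp, h3⟩
        rw [if_neg this, if_neg h1, if_neg h2, h.mul m n hm hn]

theorem rem_norm_le (f : ℕ → ℂ) (B : Finset ℕ) (n : ℕ) : ‖rem B f n‖ ≤ ‖f n‖ := by
  unfold rem; split_ifs <;> simp

theorem rem_conj (f : ℕ → ℂ) (B : Finset ℕ) (n : ℕ) :
    (starRingEnd ℂ) (rem B f n) = rem B (fun n => (starRingEnd ℂ) (f n)) n := by
  unfold rem; split_ifs <;> simp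

theorem rem_summable {f : ℕ → ℂ} {s : ℂ} (h : LSeriesSummable f s) (B : Finset ℕ) :
    LSeriesSummable (rem B f) s := by
  unfold LSeriesSummable at h ⊢
  refine h.norm.of_norm_bounded fun n => ?_
  exact LSeries.norm_term_le s (rem_norm_le f B n)

theorem rem_good {f : ℕ → ℂ} {B : Finset ℕ} (hB : ∀ p ∈ B, p.Prime)
    (hg : ∀ p : ℕ, p.Prime → p ∉ B → Good f p) (p : ℕ) (hp : p.Prime) : Good (rem B f) p := by
  by_cases h : p ∈ B
  · left
    rw [rem, if_pos ⟨p, h, dvd_rfl⟩, norm_zero]
    positivity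
  · have h1 : rem B f p = f p := by
      rw [rem, if_neg]
      rintro ⟨q, hq, hd⟩
      rcases (Nat.dvd_prime hp).1 hd with h2 | h2
      · exact (hB q hq).one_lt.ne' h2
      · exact h (h2 ▸ hq)
    have h2 := hg p hp h
    unfold Good at h2 ⊢
    rwa [h1]

theorem rem_insert {f : ℕ → ℂ} (h : CM f) {B : Finset ℕ} (hB : ∀ p ∈ B, p.Prime) {p : ℕ}
    (hp : p.Prime) (hpB : p ∉ B) {s : ℂ} (hs : LSeriesSummable f s) :
    LSeries (rem (insert p B) f) s = LSeries (rem B f) s * (1 - f p * (p : ℂ) ^ (-s)) := by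
  have hpc : (p : ℂ) ≠ 0 := by exact_mod_cast hp.pos.ne'
  have hS := rem_summable hs B
  have hS' := rem_summable hs (insert p B)
  -- the multiples of `p`
  have e1 : ∀ m : ℕ, LSeries.term (rem B f) s (p * m) =
      f p * (p : ℂ) ^ (-s) * LSeries.term (rem B f) s m := by
    intro m
    rcases eq_or_ne m 0 with rfl | hm
    · simp
    · rw [LSeries.term_of_ne_zero (mul_ne_zero hp.ne_zero hm), LSeries.term_of_ne_zero hm,
        (rem_CM h hB).mul p m hp.pos (Nat.pos_of_ne_zero hm)]
      have h1 : rem B f p = f p := by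
        rw [rem, if_neg]
        rintro ⟨q, hq, hd⟩
        rcases (Nat.dvd_prime hp).1 hd with h2 | h2
        · exact (hB q hq).one_lt.ne' h2
        · exact hpB (h2 ▸ hq)
      rw [h1, Nat.cast_mul, Complex.natCast_mul_natCast_cpow, cpow_neg]
      field_simp
  have e2 : ∀ n : ℕ, LSeries.term (rem B f) s n = LSeries.term (rem (insert p B) f) s n +
      (if p ∣ n then LSeries.term (rem B f) s n else 0) := by
    intro n
    rcases eq_or_ne n 0 with rfl | hn
    · simp
    · rw [LSeries.term_of_ne_zero hn, LSeries.term_of_ne_zero hn]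
      by_cases hd : p ∣ n
      · rw [if_pos hd]
        have : rem (insert p B) f n = 0 := by
          rw [rem, if_pos ⟨p, Finset.mem_insert_self _ _, hd⟩]
        rw [this]; ring
      · rw [if_neg hd, add_zero]
        congr 1
        unfold rem
        have : (∃ q ∈ insert p B, q ∣ n) ↔ ∃ q ∈ B, q ∣ n := by
          constructor
          · rintro ⟨q, hq, hqd⟩
            rcases Finset.mem_insert.1 hq with rfl | hq
            · exact absurd hqd hd
            · exact ⟨q, hq, hqd⟩
          · rintro ⟨q, hq, hqd⟩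
            exact ⟨q, Finset.mem_insert_of_mem hq, hqd⟩
        simp only [this]
  have hinj : Function.Injective (fun m : ℕ => p * m) := fun a b hab =>
    Nat.eq_of_mul_eq_mul_left hp.pos hab
  have e3 : HasSum (fun n => if p ∣ n then LSeries.term (rem B f) s n else 0)
      (f p * (p : ℂ) ^ (-s) * LSeries (rem B f) s) := by
    have h4 : HasSum (fun m => f p * (p : ℂ) ^ (-s) * LSeries.term (rem B f) s m)
        (f p * (p : ℂ) ^ (-s) * LSeries (rem B f) s) := hS.hasSum.mul_left _
    have h5 : (fun m => f p * (p : ℂ) ^ (-s) * LSeries.term (rem B f) s m) =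
        (fun n => if p ∣ n then LSeries.term (rem B f) s n else 0) ∘ (fun m : ℕ => p * m) := by
      funext m
      simp only [Function.comp, dvd_mul_right, if_true, e1]
    rw [h5] at h4
    refine (hinj.hasSum_iff ?_).1 h4
    intro n hn
    rw [if_neg]
    rintro ⟨m, rfl⟩
    exact hn ⟨m, rfl⟩
  have e6 : LSeries (rem B f) s = LSeries (rem (insert p B) f) s +
      f p * (p : ℂ) ^ (-s) * LSeries (rem B f) s := by
    conv_lhs => unfold LSeries
    rw [tsum_congr e2, Summable.tsum_add hS' e3.summable, e3.tsum_eq]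
    rfl
  linear_combination -e6

theorem rem_LSeries {f : ℕ → ℂ} (h : CM f) {B : Finset ℕ} (hB : ∀ p ∈ B, p.Prime) {s : ℂ}
    (hs : LSeriesSummable f s) :
    LSeries (rem B f) s = LSeries f s * ∏ p ∈ B, (1 - f p * (p : ℂ) ^ (-s)) := by
  classical
  induction B using Finset.induction_on with
  | empty =>
    rw [Finset.prod_empty, mul_one]
    exact LSeries_congr (fun {n} _ => by simp [rem]) s
  | insert p B hp ih =>
    have hB' : ∀ q ∈ B, q.Prime := fun q hq => hB q (Finset.mem_insert_of_mem hq)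
    rw [rem_insert h hB' (hB p (Finset.mem_insert_self _ _)) hp hs, ih hB',
      Finset.prod_insert hp]
    ring

end Pool.Agent.J6H30.CMO
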