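import Mathlib
import Pool.Agent.J6H30.CMO.Pert
import Pool.Agent.J6H30.CMO.Mell2
import Pool.Agent.J6H30.CMO.Rem

/-! Assembly (logarithmic mean version). -/

set_option autoImplicit false

open Complex Filter Topology MeasureTheory Set

namespace Pool.Agent.J6H30.CMO

theorem PS_nat (f : ℕ → ℂ) (n : ℕ) : PS f n = ∑ k ∈ Finset.Icc 1 n, f k := by
  simp [PS]

theorem conj_PS (f : ℕ → ℂ) (t : ℝ) :
    PS (fun n => (starRingEnd ℂ) (f n)) t = (starRingEnd ℂ) (PS f t) := by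
  simp [PS, map_sum]

/-- bounded partial sums -/
def BP (f : ℕ → ℂ) (b : ℝ) : Prop := ∀ n : ℕ, ‖∑ k ∈ Finset.Icc 1 n, f k‖ ≤ b

theorem BP.conj {f : ℕ → ℂ} {b : ℝ} (h : BP f b) : BP (fun n => (starRingEnd ℂ) (f n)) b := by
  intro n
  rw [← map_sum, RCLike.norm_conj]
  exact h n

theorem BP.summ {f : ℕ → ℂ} {b : ℝ} (h : BP f b) {s : ℂ} (hs : 1 < s.re) : LSeriesSummable f s := by
  refine LSeriesSummable_of_bounded_of_one_lt_re (m := 2 * b) (fun n hn => ?_) hs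
  obtain ⟨m, rfl⟩ := Nat.exists_eq_succ_of_ne_zero hn
  have e : f (m + 1) = (∑ k ∈ Finset.Icc 1 (m + 1), f k) - ∑ k ∈ Finset.Icc 1 m, f k := by
    rw [Finset.sum_Icc_succ_top (by omega)]; ring
  have h1 := norm_sub_le (∑ k ∈ Finset.Icc 1 (m + 1), f k) (∑ k ∈ Finset.Icc 1 m, f k)
  rw [← e] at h1
  have h2 := h (m + 1)
  have h3 := h m
  show ‖f (m + 1)‖ ≤ 2 * b
  linarith

theorem LogHyp.conj {f : ℕ → ℂ} {C : ℝ} (h : LogHyp f C) :
    LogHyp (fun n => (starRingEnd ℂ) (f n)) C := by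
  unfold LogHyp at h ⊢
  simp only [conj_PS, RCLike.norm_conj]
  exact h

/-- the constant in `LogHyp` is nonnegative -/
theorem LogHyp.nonneg {f : ℕ → ℂ} {C : ℝ} (h : LogHyp f C) : 0 ≤ C := by
  obtain ⟨X, hX, hX1⟩ := (h.and (eventually_gt_atTop (1 : ℝ))).exists
  have h1 : 0 ≤ ∫ t in (1 : ℝ)..X, ‖PS f t‖ / √t :=
    intervalIntegral.integral_nonneg hX1.le fun t _ => phi_nonneg f t
  have h2 : 0 < Real.log X := Real.log_pos hX1
  by_contra hcon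
  push Not at hcon
  nlinarith

/-- the limit argument -/
theorem limit_arg {C K K' V0 : ℝ} (hC : 0 ≤ C) {V : ℝ → ℝ} (hV0 : ∀ δ, 0 ≤ V δ)
    (hV : Tendsto V (𝓝[>] 0) (𝓝 V0)) (hK : ∀ δ : ℝ, 0 < δ → δ < 1 / 2 → 0 ≤ K + C / δ)
    (h : ∀ δ : ℝ, 0 < δ → δ < 1 / 2 → ‖riemannZeta (1 + 2 * δ)‖ ^ 2 ≤
      ‖Zr ((δ : ℂ) - 1 / 2)‖ ^ 2 * (K + C / δ) * (K' + C / δ) * V δ) :
    1 ≤ (C * ‖riemannZeta (1 / 2)‖) ^ 2 * V0 := by
  have hmain : ∀ δ : ℝ, 0 < δ → δ < 1 / 2 →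
      ‖(2 * δ : ℂ) * riemannZeta (1 + 2 * δ)‖ ^ 2 ≤ ‖Zr ((δ : ℂ) - 1 / 2)‖ ^ 2 *
        (2 * δ * K + 2 * C) * (2 * δ * K' + 2 * C) * V δ := by
    intro δ h1 h2
    have h3 := h δ h1 h2
    have e2 : ‖(2 * δ : ℂ)‖ = 2 * δ := by
      rw [show (2 * δ : ℂ) = ((2 * δ : ℝ) : ℂ) by push_cast; rfl, norm_real,
        Real.norm_of_nonneg (by linarith)]
    rw [norm_mul, e2, mul_pow]
    have e3 : 2 * δ * K + 2 * C = 2 * δ * (K + C / δ) := by field_simp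
    have e4 : 2 * δ * K' + 2 * C = 2 * δ * (K' + C / δ) := by field_simp
    rw [e3, e4]
    calc (2 * δ) ^ 2 * ‖riemannZeta (1 + 2 * δ)‖ ^ 2
        ≤ (2 * δ) ^ 2 * (‖Zr ((δ : ℂ) - 1 / 2)‖ ^ 2 * (K + C / δ) * (K' + C / δ) * V δ) := by
          gcongr
      _ = _ := by ring
  have t0 : Tendsto (fun δ : ℝ => (δ : ℂ)) (𝓝[>] 0) (𝓝 0) := by
    have : Tendsto (fun δ : ℝ => (δ : ℂ)) (𝓝 0) (𝓝 ((0 : ℝ) : ℂ)) :=
      Complex.continuous_ofReal.tendsto 0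
    rw [ofReal_zero] at this
    exact this.mono_left nhdsWithin_le_nhds
  have t1 : Tendsto (fun δ : ℝ => ‖(2 * δ : ℂ) * riemannZeta (1 + 2 * δ)‖ ^ 2) (𝓝[>] 0) (𝓝 1) := by
    have a1 : Tendsto (fun δ : ℝ => (1 + 2 * δ : ℂ)) (𝓝[>] 0) (𝓝[≠] 1) := by
      refine tendsto_nhdsWithin_iff.2 ⟨?_, ?_⟩
      · have := (t0.const_mul 2).const_add 1
        simpa using this
      · filter_upwards [self_mem_nhdsWithin] with δ hδ
        have hδ' : (0 : ℝ) < δ := hδ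
        simp only [mem_compl_iff, mem_singleton_iff]
        intro hcon
        have : (δ : ℂ) = 0 := by linear_combination hcon / 2
        exact hδ'.ne' (by exact_mod_cast this)
    have a2 := ((riemannZeta_residue_one.comp a1).norm).pow 2
    simp only [norm_one, one_pow] at a2
    refine a2.congr fun δ => ?_
    simp only [Function.comp]
    congr 3
    ring
  have t2 : Tendsto (fun δ : ℝ => ‖Zr ((δ : ℂ) - 1 / 2)‖ ^ 2 *
        (2 * δ * K + 2 * C) * (2 * δ * K' + 2 * C) * V δ) (𝓝[>] 0)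
      (𝓝 (‖Zr (-(1 / 2))‖ ^ 2 * (2 * 0 * K + 2 * C) * (2 * 0 * K' + 2 * C) * V0)) := by
    have b0 : Tendsto (fun δ : ℝ => (δ : ℂ) - 1 / 2) (𝓝[>] 0) (𝓝 (-(1 / 2))) := by
      have := t0.sub_const (1 / 2)
      simpa using this
    have b1 : Tendsto (fun δ : ℝ => ‖Zr ((δ : ℂ) - 1 / 2)‖) (𝓝[>] 0) (𝓝 ‖Zr (-(1 / 2))‖) :=
      ((Zr_diff.continuous.tendsto _).comp b0).norm
    have b3 : Tendsto (fun δ : ℝ => δ) (𝓝[>] (0 : ℝ)) (𝓝 0) :=
      tendsto_id.mono_left nhdsWithin_le_nhds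
    exact (((b1.pow 2).mul (((b3.const_mul 2).mul_const K).add_const _)).mul
      (((b3.const_mul 2).mul_const K').add_const _)).mul hV
  have hlim := le_of_tendsto_of_tendsto t1 t2 (by
    filter_upwards [Ioo_mem_nhdsGT (show (0 : ℝ) < 1 / 2 by norm_num)] with δ hδ
    exact hmain δ hδ.1 hδ.2)
  have e5 : ‖Zr (-(1 / 2))‖ = ‖riemannZeta (1 / 2)‖ / 2 := by
    rw [Zr_apply (by norm_num), norm_mul, show (1 : ℂ) + -(1 / 2) = 1 / 2 by norm_num]
    rw [norm_neg, norm_div, norm_one]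
    simp
    ring
  rw [e5] at hlim
  refine hlim.trans (le_of_eq ?_)
  ring

/-- the finite Euler factor -/
noncomputable def Fin' (B : Finset ℕ) (f : ℕ → ℂ) (s : ℂ) : ℂ :=
  ∏ p ∈ B, (1 - f p * (p : ℂ) ^ (-s))

theorem Fin'_diff {B : Finset ℕ} (hB : ∀ p ∈ B, p.Prime) (f : ℕ → ℂ) (s : ℂ) :
    DifferentiableAt ℂ (Fin' B f) s := by
  unfold Fin'
  refine DifferentiableAt.fun_finsetProd fun p hp => ?_
  refine (differentiableAt_const _).sub (DifferentiableAt.const_mul ?_ _)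
  exact (differentiableAt_id.neg).const_cpow (Or.inl (by exact_mod_cast (hB p hp).ne_zero))

theorem Fin'_conj (B : Finset ℕ) (f : ℕ → ℂ) (σ : ℝ) :
    ‖Fin' B (fun n => (starRingEnd ℂ) (f n)) σ‖ = ‖Fin' B f σ‖ := by
  have : Fin' B (fun n => (starRingEnd ℂ) (f n)) σ = (starRingEnd ℂ) (Fin' B f σ) := by
    unfold Fin'
    rw [map_prod]
    refine Finset.prod_congr rfl fun p _ => ?_
    have e : (p : ℂ) ^ (-(σ : ℂ)) = (((p : ℝ) ^ (-σ) : ℝ) : ℂ) := by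
      rw [ofReal_cpow (Nat.cast_nonneg p)]; push_cast; rfl
    rw [e, map_sub, map_one, map_mul, Complex.conj_ofReal]
  rw [this, RCLike.norm_conj]

/-- **Main bound**, finitely many exceptional primes. -/
theorem main_fin {f : ℕ → ℂ} (hf : CM f) {b : ℝ} (hb : BP f b) {B : Finset ℕ}
    (hB : ∀ p ∈ B, p.Prime) (hg : ∀ p : ℕ, p.Prime → p ∉ B → Good f p) {C : ℝ} (h : LogHyp f C) :
    1 ≤ C * ‖riemannZeta (1 / 2)‖ * ∏ p ∈ B, ‖1 - (√(p : ℝ) : ℂ) * f p‖ := by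
  have hC := h.nonneg
  set f' : ℕ → ℂ := fun n => (starRingEnd ℂ) (f n) with hf'
  obtain ⟨K, hK⟩ := MT_bound hC h
  obtain ⟨K', hK'⟩ := MT_bound hC h.conj
  have hS : ∀ s : ℂ, 1 < s.re → LSeriesSummable f s := fun s hs => hb.summ hs
  have hS' : ∀ s : ℂ, 1 < s.re → LSeriesSummable f' s := fun s hs => hb.conj.summ hs
  have e1 : (fun n => (starRingEnd ℂ) (rem B f n)) = rem B f' := funext fun n => rem_conj f B n
  have hin : ∀ σ : ℝ, -(1 / 2) < σ → σ < 0 → ‖riemannZeta (2 + 2 * σ)‖ ^ 2 ≤ ‖Zr σ‖ ^ 2 *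
      ‖MT f σ * Fin' B f σ‖ * ‖MT f' σ * Fin' B f' σ‖ := by
    intro σ hσ hσ0
    refine core (f := rem B f) (rem_CM hf hB) (rem_good hB hg) ?_ ?_
      (M := fun s => MT f s * Fin' B f s) (M' := fun s => MT f' s * Fin' B f' s) ?_ ?_ ?_ ?_ hσ hσ0
    · intro s hs
      exact rem_summable (hS s hs) B
    · intro s hs
      rw [e1]; exact rem_summable (hS' s hs) B
    · intro s hs
      exact (MT_diff hC h s hs).mul (Fin'_diff hB f s)
    · intro s hs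
      exact (MT_diff hC h.conj s hs).mul (Fin'_diff hB f' s)
    · intro s hs
      rw [rem_LSeries hf hB (hS s hs), LS_eq' hb hs (hS s hs), Fin']
      ring
    · intro s hs
      rw [e1, rem_LSeries hf.conj hB (hS' s hs), LS_eq' hb.conj hs (hS' s hs), Fin']
      ring
  have hlim := limit_arg (C := C) (K := K) (K' := K')
    (V := fun δ => ‖Fin' B f ((δ : ℂ) - 1 / 2)‖ ^ 2) (V0 := ‖Fin' B f (-(1 / 2))‖ ^ 2) hC
    (fun δ => by positivity) ?_ ?_ ?_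
  · have e6 : ‖Fin' B f (-(1 / 2))‖ = ∏ p ∈ B, ‖1 - (√(p : ℝ) : ℂ) * f p‖ := by
      rw [Fin', norm_prod]
      refine Finset.prod_congr rfl fun p _ => ?_
      congr 2
      rw [neg_neg, mul_comm, Real.sqrt_eq_rpow, ofReal_cpow (Nat.cast_nonneg p)]
      push_cast; rfl
    rw [e6] at hlim
    set Q := ∏ p ∈ B, ‖1 - (√(p : ℝ) : ℂ) * f p‖
    have hQ : 0 ≤ Q := Finset.prod_nonneg fun _ _ => norm_nonneg _
    have hR : 0 ≤ C * ‖riemannZeta (1 / 2)‖ * Q := by positivity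
    rw [← mul_pow] at hlim
    by_contra hcon
    push Not at hcon
    nlinarith
  · have t0 : Tendsto (fun δ : ℝ => (δ : ℂ)) (𝓝[>] 0) (𝓝 0) := by
      have : Tendsto (fun δ : ℝ => (δ : ℂ)) (𝓝 0) (𝓝 ((0 : ℝ) : ℂ)) :=
        Complex.continuous_ofReal.tendsto 0
      rw [ofReal_zero] at this
      exact this.mono_left nhdsWithin_le_nhds
    have b0 : Tendsto (fun δ : ℝ => (δ : ℂ) - 1 / 2) (𝓝[>] 0) (𝓝 (-(1 / 2))) := by
      have := t0.sub_const (1 / 2)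
      simpa using this
    exact ((((Fin'_diff hB f (-(1 / 2))).continuousAt.tendsto).comp b0).norm).pow 2
  · intro δ h1 h2
    have h4 := hK (δ - 1 / 2) (by linarith) (by linarith)
    rw [show δ - 1 / 2 + 1 / 2 = δ by ring] at h4
    exact (norm_nonneg _).trans h4
  · intro δ h1 h2
    have e0 : (((δ - 1 / 2 : ℝ)) : ℂ) = (δ : ℂ) - 1 / 2 := by push_cast; ring
    have h3 := hin (δ - 1 / 2) (by linarith) (by linarith)
    have h4 := hK (δ - 1 / 2) (by linarith) (by linarith)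
    have h5 := hK' (δ - 1 / 2) (by linarith) (by linarith)
    rw [norm_mul (MT _ _), norm_mul (MT _ _), Fin'_conj, e0] at h3
    rw [e0, show δ - 1 / 2 + 1 / 2 = δ by ring] at h4 h5
    have e1 : (2 : ℂ) + 2 * ((δ : ℂ) - 1 / 2) = 1 + 2 * δ := by ring
    rw [e1] at h3
    set P := ‖Fin' B f ((δ : ℂ) - 1 / 2)‖
    have hP : 0 ≤ P := norm_nonneg _
    have h6 : 0 ≤ K + C / δ := (norm_nonneg _).trans h4
    calc ‖riemannZeta (1 + 2 * δ)‖ ^ 2
        ≤ ‖Zr ((δ : ℂ) - 1 / 2)‖ ^ 2 * (‖MT f ((δ : ℂ) - 1 / 2)‖ * P) *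
          (‖MT f' ((δ : ℂ) - 1 / 2)‖ * P) := h3
      _ ≤ ‖Zr ((δ : ℂ) - 1 / 2)‖ ^ 2 * ((K + C / δ) * P) * ((K' + C / δ) * P) := by gcongr
      _ = _ := by ring

theorem Per.conj {f z : ℕ → ℂ} (h : Per f z) :
    Per (fun n => (starRingEnd ℂ) (f n)) (fun n => (starRingEnd ℂ) (z n)) := by
  refine ⟨fun p hp => ?_, ?_⟩
  · rcases h.alt p hp with h1 | h1
    · left; rw [h1]
    · right; rwa [RCLike.norm_conj]
  · refine h.summ.congr fun p => ?_
    rw [← map_sub, RCLike.norm_conj]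

/-- **Main bound**, perturbations. -/
theorem main_per {f z : ℕ → ℂ} (hf : CM f) {b : ℝ} (hb : BP f b) (hz : Per f z)
    (hg : ∀ p : ℕ, p.Prime → ‖z p‖ ≤ (p : ℝ)⁻¹ ∨ ∃ r : ℝ, (p : ℝ)⁻¹ ≤ r ∧ z p = r) :
    ∃ c : ℝ, 0 < c ∧ ∀ C : ℝ, LogHyp f C → c ≤ C := by
  set f' : ℕ → ℂ := fun n => (starRingEnd ℂ) (f n) with hf'
  set z' : ℕ → ℂ := fun n => (starRingEnd ℂ) (z n) with hz'
  have hS : ∀ s : ℂ, 1 < s.re → LSeriesSummable f s := fun s hs => hb.summ hs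
  have hS' : ∀ s : ℂ, 1 < s.re → LSeriesSummable f' s := fun s hs => hb.conj.summ hs
  have e1 : (fun n => (starRingEnd ℂ) (cmf z n)) = cmf z' := funext fun n => cmf_conj z n
  have hW := Wt_pos hf hz
  have hW' := Wt_pos hf.conj hz.conj
  have hζ : 0 < ‖riemannZeta (1 / 2)‖ ∨ ‖riemannZeta (1 / 2)‖ = 0 := by
    rcases (norm_nonneg (riemannZeta (1 / 2))).lt_or_eq with h | h
    · exact Or.inl h
    · exact Or.inr h.symm
  have key : ∀ C : ℝ, LogHyp f C →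
      1 ≤ (C * ‖riemannZeta (1 / 2)‖) ^ 2 * (Wt f z * Wt f' z') := by
    intro C h
    have hC := h.nonneg
    obtain ⟨K, hK⟩ := MT_bound hC h
    obtain ⟨K', hK'⟩ := MT_bound hC h.conj
    have hin : ∀ σ : ℝ, -(1 / 2) < σ → σ < 0 → ‖riemannZeta (2 + 2 * σ)‖ ^ 2 ≤ ‖Zr σ‖ ^ 2 *
        ‖MT f σ * LSeries (fun n => gq' f z n) σ‖ *
        ‖MT f' σ * LSeries (fun n => gq' f' z' n) σ‖ := by
      intro σ hσ hσ0
      refine core (f := cmf z) (cmf_CM z) ?_ ?_ ?_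
        (M := fun s => MT f s * LSeries (fun n => gq' f z n) s)
        (M' := fun s => MT f' s * LSeries (fun n => gq' f' z' n) s) ?_ ?_ ?_ ?_ hσ hσ0
      · intro p hp
        unfold Good
        rw [cmf_prime z hp]
        exact hg p hp
      · intro s hs
        exact (cmf_LSeries hf hz (by linarith) (hS s hs)).1
      · intro s hs
        rw [e1]; exact (cmf_LSeries hf.conj hz.conj (by linarith) (hS' s hs)).1
      · intro s hs
        exact (MT_diff hC h s hs).mul (gq'_diff hf hz hs)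
      · intro s hs
        exact (MT_diff hC h.conj s hs).mul (gq'_diff hf.conj hz.conj hs)
      · intro s hs
        rw [(cmf_LSeries hf hz (by linarith) (hS s hs)).2, LS_eq' hb hs (hS s hs)]
        ring
      · intro s hs
        rw [e1, (cmf_LSeries hf.conj hz.conj (by linarith) (hS' s hs)).2,
          LS_eq' hb.conj hs (hS' s hs)]
        ring
    refine limit_arg (C := C) (K := K) (K' := K')
      (V := fun _ => Wt f z * Wt f' z') hC (fun δ => by positivity) tendsto_const_nhds ?_ ?_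
    · intro δ h1 h2
      have h4 := hK (δ - 1 / 2) (by linarith) (by linarith)
      rw [show δ - 1 / 2 + 1 / 2 = δ by ring] at h4
      exact (norm_nonneg _).trans h4
    · intro δ h1 h2
      have e0 : (((δ - 1 / 2 : ℝ)) : ℂ) = (δ : ℂ) - 1 / 2 := by push_cast; ring
      have h3 := hin (δ - 1 / 2) (by linarith) (by linarith)
      have h4 := hK (δ - 1 / 2) (by linarith) (by linarith)
      have h5 := hK' (δ - 1 / 2) (by linarith) (by linarith)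
      have h7 := gq'_norm hf hz (s := ((δ - 1 / 2 : ℝ) : ℂ)) (by rw [ofReal_re]; linarith)
      have h8 := gq'_norm hf.conj hz.conj (s := ((δ - 1 / 2 : ℝ) : ℂ)) (by rw [ofReal_re]; linarith)
      rw [norm_mul (MT _ _), norm_mul (MT _ _), e0] at h3
      rw [e0, show δ - 1 / 2 + 1 / 2 = δ by ring] at h4 h5
      rw [e0] at h7 h8
      have e1 : (2 : ℂ) + 2 * ((δ : ℂ) - 1 / 2) = 1 + 2 * δ := by ring
      rw [e1] at h3
      have h6 : 0 ≤ K + C / δ := (norm_nonneg _).trans h4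
      have h6' : 0 ≤ K' + C / δ := (norm_nonneg _).trans h5
      calc ‖riemannZeta (1 + 2 * δ)‖ ^ 2
          ≤ ‖Zr ((δ : ℂ) - 1 / 2)‖ ^ 2 * (‖MT f ((δ : ℂ) - 1 / 2)‖ *
              ‖LSeries (fun n => gq' f z n) ((δ : ℂ) - 1 / 2)‖) *
            (‖MT f' ((δ : ℂ) - 1 / 2)‖ *
              ‖LSeries (fun n => gq' f' z' n) ((δ : ℂ) - 1 / 2)‖) := h3
        _ ≤ ‖Zr ((δ : ℂ) - 1 / 2)‖ ^ 2 * ((K + C / δ) * Wt f z) * ((K' + C / δ) * Wt f' z') := by
          gcongr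
        _ = _ := by ring
  set Q : ℝ := ‖riemannZeta (1 / 2)‖ ^ 2 * (Wt f z * Wt f' z') with hQ
  have hQ0 : 0 ≤ Q := by positivity
  refine ⟨(√(Q + 1))⁻¹, by positivity, fun C h => ?_⟩
  have h1 := key C h
  have hC := h.nonneg
  have h2 : 1 ≤ C ^ 2 * (Q + 1) := by
    have : (C * ‖riemannZeta (1 / 2)‖) ^ 2 * (Wt f z * Wt f' z') = C ^ 2 * Q := by
      rw [hQ]; ring
    rw [this] at h1
    nlinarith [sq_nonneg C]
  have h3 : 1 ≤ C * √(Q + 1) := by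
    have h4 : C ^ 2 * (Q + 1) = (C * √(Q + 1)) ^ 2 := by
      rw [mul_pow, Real.sq_sqrt (by linarith)]
    rw [h4] at h2
    have h5 : 0 ≤ C * √(Q + 1) := by positivity
    by_contra hcon
    push Not at hcon
    nlinarith
  rw [inv_le_iff_one_le_mul₀ (by positivity)]
  exact h3

end Pool.Agent.J6H30.CMO
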