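import Mathlib
import Pool.Agent.J6H30.CMO.Main2

/-! Final form. -/

set_option autoImplicit false

open Complex Filter Topology MeasureTheory Set

namespace Pool.Agent.J6H30.CMO

theorem le_one_of_pow' {x A : ℝ} (h : ∀ k : ℕ, x ^ k ≤ A) : x ≤ 1 := by
  by_contra hx
  push Not at hx
  obtain ⟨k, hk⟩ := pow_unbounded_of_one_lt A hx
  linarith [h k]

/-- a pointwise bound gives a bound for the logarithmic mean -/
theorem logHyp_of_pt {f : ℕ → ℂ} {C C' : ℝ} (hCC : C < C')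
    (h : ∀ᶠ t : ℝ in atTop, √t * ‖PS f t‖ ≤ C) : LogHyp f C' := by
  obtain ⟨X₁, hX₁⟩ := eventually_atTop.1 h
  set X₀ : ℝ := max X₁ 1 with hX₀
  have hX₀1 : 1 ≤ X₀ := le_max_right _ _
  have hX₀0 : 0 < X₀ := by linarith
  set A : ℝ := ∫ t in (1 : ℝ)..X₀, ‖PS f t‖ / √t with hA
  have hlog : ∀ᶠ X : ℝ in atTop, (A - C * Real.log X₀) / (C' - C) ≤ Real.log X :=
    Real.tendsto_log_atTop.eventually_ge_atTop _
  unfold LogHyp
  filter_upwards [hlog, eventually_ge_atTop X₀] with X h1 h2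
  have hX1 : 1 ≤ X := hX₀1.trans h2
  have i1 : IntervalIntegrable (fun t : ℝ => ‖PS f t‖ / √t) volume 1 X₀ :=
    (intervalIntegrable_iff_integrableOn_Ioc_of_le hX₀1).2 (phi_int f hX₀1)
  have i2 : IntervalIntegrable (fun t : ℝ => ‖PS f t‖ / √t) volume X₀ X :=
    (intervalIntegrable_iff_integrableOn_Ioc_of_le h2).2
      ((phi_int f hX1).mono_set (Ioc_subset_Ioc_left hX₀1))
  have i3 : IntervalIntegrable (fun t : ℝ => C * t⁻¹) volume X₀ X := by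
    refine ContinuousOn.intervalIntegrable ?_
    rw [uIcc_of_le h2]
    refine continuousOn_const.mul (continuousOn_inv₀.mono ?_)
    intro t ht
    exact (lt_of_lt_of_le hX₀0 ht.1).ne'
  rw [← intervalIntegral.integral_add_adjacent_intervals i1 i2]
  have h3 : ∫ t in X₀..X, ‖PS f t‖ / √t ≤ ∫ t in X₀..X, C * t⁻¹ := by
    refine intervalIntegral.integral_mono_on h2 i2 i3 fun t ht => ?_
    have ht0 : 0 < t := lt_of_lt_of_le hX₀0 ht.1
    have h4 := hX₁ t ((le_max_left _ _).trans ht.1)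
    have h5 : 0 < √t := Real.sqrt_pos.2 ht0
    rw [div_le_iff₀ h5]
    have h6 : √t * √t = t := Real.mul_self_sqrt ht0.le
    have h7 : C * t⁻¹ * √t = C / √t := by
      rw [eq_div_iff h5.ne', mul_assoc, h6, mul_assoc, inv_mul_cancel₀ ht0.ne', mul_one]
    rw [h7, le_div_iff₀ h5, mul_comm]
    exact h4
  have h8 : ∫ t in X₀..X, C * t⁻¹ = C * (Real.log X - Real.log X₀) := by
    rw [intervalIntegral.integral_const_mul, integral_inv_of_pos hX₀0 (by linarith),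
      Real.log_div (by linarith) hX₀0.ne']
  rw [h8] at h3
  rw [div_le_iff₀ (by linarith)] at h1
  calc _ ≤ A + C * (Real.log X - Real.log X₀) := add_le_add le_rfl h3
    _ ≤ C' * Real.log X := by nlinarith

theorem logHyp_of_mean {f : ℕ → ℂ} {C : ℝ}
    (h : ∀ᶠ X : ℝ in atTop, (∫ t in (1 : ℝ)..X, ‖PS f t‖ / √t) / Real.log X ≤ C) :
    LogHyp f C := by
  unfold LogHyp
  filter_upwards [h, eventually_gt_atTop 1] with X h1 h2
  rwa [div_le_iff₀ (Real.log_pos h2)] at h1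

/-- a completely multiplicative function with a value `|f(p)| > 1/p` -/
theorem big_prime {f : ℕ → ℂ} (hf : CM f) {p : ℕ} (hp : p.Prime) (h : (p : ℝ)⁻¹ < ‖f p‖) :
    ∃ θ : ℝ, θ < 1 ∧ ∃ c : ℝ, 0 < c ∧ ∃ᶠ x : ℝ in atTop, c ≤ x ^ θ * ‖PS f x‖ := by
  have hp0 : (0 : ℝ) < p := by exact_mod_cast hp.pos
  have hp1 : (1 : ℝ) < p := by exact_mod_cast hp.one_lt
  have hlp : 0 < Real.log p := Real.log_pos hp1
  have hfp : 0 < ‖f p‖ := lt_trans (by positivity) h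
  set θ₀ : ℝ := -Real.log ‖f p‖ / Real.log p with hθ₀
  have hθ₁ : θ₀ < 1 := by
    rw [hθ₀, div_lt_one hlp]
    have := Real.log_lt_log (by positivity) h
    rw [Real.log_inv] at this
    linarith
  have hval : (p : ℝ) ^ (-θ₀) = ‖f p‖ := by
    rw [Real.rpow_def_of_pos hp0, hθ₀]
    have : Real.log p * -(-Real.log ‖f p‖ / Real.log p) = Real.log ‖f p‖ := by field_simp
    rw [this, Real.exp_log hfp]
  set θ : ℝ := max θ₀ 0 with hθ
  have hθ0 : 0 ≤ θ := le_max_right _ _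
  have hge : (p : ℝ) ^ (-θ) ≤ ‖f p‖ := by
    rw [← hval]
    exact Real.rpow_le_rpow_of_exponent_le hp1.le (neg_le_neg (le_max_left _ _))
  refine ⟨θ, max_lt hθ₁ one_pos, (2 : ℝ) ^ (-θ) / 2, by positivity, ?_⟩
  rw [frequently_atTop]
  intro a
  obtain ⟨k, hk1, hk2⟩ := ((tendsto_pow_atTop_atTop_of_one_lt hp1).eventually_ge_atTop (a + 1)
    |>.and (eventually_ge_atTop 1)).exists
  set n : ℕ := p ^ k with hn
  have hncast : (n : ℝ) = (p : ℝ) ^ k := by rw [hn]; push_cast; rfl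
  have hn1 : 1 ≤ n := Nat.one_le_pow _ _ hp.pos
  have hn1' : (1 : ℝ) ≤ n := by exact_mod_cast hn1
  have hn0 : (0 : ℝ) < n := by linarith
  have hfn : (n : ℝ) ^ (-θ) ≤ ‖f n‖ := by
    rw [hn, hf.pow hp.pos, norm_pow, Nat.cast_pow, ← Real.rpow_natCast, ← Real.rpow_mul hp0.le,
      mul_comm, Real.rpow_mul hp0.le, Real.rpow_natCast]
    gcongr
  obtain ⟨m, hm⟩ : ∃ m, n = m + 1 := ⟨n - 1, by omega⟩
  have e1 : f n = PS f n - PS f ((n : ℝ) - 1 / 2) := by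
    have hfl : ⌊(n : ℝ) - 1 / 2⌋₊ = m := by
      rw [Nat.floor_eq_iff (by linarith), hm]
      push_cast
      constructor <;> linarith
    rw [PS_nat, PS, hfl, hm, Finset.sum_Icc_succ_top (by omega)]
    ring
  have h2 : ‖f n‖ ≤ ‖PS f n‖ + ‖PS f ((n : ℝ) - 1 / 2)‖ := by rw [e1]; exact norm_sub_le _ _
  have h3 : (n : ℝ) ^ θ * (n : ℝ) ^ (-θ) = 1 := by
    rw [← Real.rpow_add hn0]; simp
  have h4 : (2 : ℝ) ^ (-θ) ≤ 1 := Real.rpow_le_one_of_one_le_of_nonpos (by norm_num) (by linarith)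
  rcases le_or_gt ((n : ℝ) ^ (-θ) / 2) ‖PS f n‖ with h5 | h5
  · refine ⟨n, by linarith, ?_⟩
    calc (2 : ℝ) ^ (-θ) / 2 ≤ 1 / 2 := by gcongr
      _ = (n : ℝ) ^ θ * ((n : ℝ) ^ (-θ) / 2) := by rw [← h3]; ring
      _ ≤ _ := by gcongr
  · refine ⟨(n : ℝ) - 1 / 2, by linarith, ?_⟩
    have h6 : (n : ℝ) ^ (-θ) / 2 ≤ ‖PS f ((n : ℝ) - 1 / 2)‖ := by linarith
    have h7 : ((n : ℝ) / 2) ^ θ ≤ ((n : ℝ) - 1 / 2) ^ θ :=
      Real.rpow_le_rpow (by positivity) (by linarith) hθ0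
    have h8 : ((n : ℝ) / 2) ^ θ = (n : ℝ) ^ θ * (2 : ℝ) ^ (-θ) := by
      rw [div_eq_mul_inv, Real.mul_rpow hn0.le (by norm_num), Real.rpow_neg (by norm_num),
        Real.inv_rpow (by norm_num)]
    calc (2 : ℝ) ^ (-θ) / 2 = (n : ℝ) ^ θ * (2 : ℝ) ^ (-θ) * ((n : ℝ) ^ (-θ) / 2) := by
          have : (n : ℝ) ^ θ * (2 : ℝ) ^ (-θ) * ((n : ℝ) ^ (-θ) / 2) =
            ((n : ℝ) ^ θ * (n : ℝ) ^ (-θ)) * ((2 : ℝ) ^ (-θ) / 2) := by ring
          rw [this, h3, one_mul]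
      _ ≤ ((n : ℝ) - 1 / 2) ^ θ * ‖PS f ((n : ℝ) - 1 / 2)‖ := by
          rw [← h8]
          have h9 : 0 ≤ ((n : ℝ) - 1 / 2) ^ θ := Real.rpow_nonneg (by linarith) _
          exact mul_le_mul h7 h6 (by positivity) h9

/-- exact exponent and constant -/
theorem big_prime' {f : ℕ → ℂ} (hf : CM f) {p : ℕ} (hp : p.Prime) (h : (p : ℝ)⁻¹ < ‖f p‖)
    (h1 : ‖f p‖ < 1) :
    ∃ θ : ℝ, 0 < θ ∧ θ < 1 ∧ ‖f p‖ = (p : ℝ) ^ (-θ) ∧
      ∀ c : ℝ, c < 1 / 2 → ∃ᶠ x : ℝ in atTop, c ≤ x ^ θ * ‖PS f x‖ := by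
  have hp0 : (0 : ℝ) < p := by exact_mod_cast hp.pos
  have hp1 : (1 : ℝ) < p := by exact_mod_cast hp.one_lt
  have hlp : 0 < Real.log p := Real.log_pos hp1
  have hfp : 0 < ‖f p‖ := lt_trans (by positivity) h
  set θ : ℝ := -Real.log ‖f p‖ / Real.log p with hθ₀
  have hθ₁ : θ < 1 := by
    rw [hθ₀, div_lt_one hlp]
    have := Real.log_lt_log (by positivity) h
    rw [Real.log_inv] at this
    linarith
  have hθ0 : 0 < θ := by
    have := Real.log_neg hfp h1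
    rw [hθ₀]
    exact div_pos (by linarith) hlp
  have hval : (p : ℝ) ^ (-θ) = ‖f p‖ := by
    rw [Real.rpow_def_of_pos hp0, hθ₀]
    have : Real.log p * -(-Real.log ‖f p‖ / Real.log p) = Real.log ‖f p‖ := by field_simp
    rw [this, Real.exp_log hfp]
  refine ⟨θ, hθ0, hθ₁, hval.symm, fun c hc => ?_⟩
  rw [frequently_atTop]
  intro a
  obtain ⟨k, hk1, hk2⟩ := ((tendsto_pow_atTop_atTop_of_one_lt hp1).eventually_ge_atTop (a + 1)
    |>.and ((tendsto_pow_atTop_atTop_of_one_lt hp1).eventually_ge_atTop (1 / (1 - 2 * c)))).exists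
  set n : ℕ := p ^ k with hn
  have hncast : (n : ℝ) = (p : ℝ) ^ k := by rw [hn]; push_cast; rfl
  rw [← hncast] at hk1 hk2
  have hn1 : 1 ≤ n := Nat.one_le_pow _ _ hp.pos
  have hn1' : (1 : ℝ) ≤ n := by exact_mod_cast hn1
  have hn0 : (0 : ℝ) < n := by linarith
  have hfn : ‖f n‖ = (n : ℝ) ^ (-θ) := by
    rw [hn, hf.pow hp.pos, norm_pow, Nat.cast_pow, ← Real.rpow_natCast, ← Real.rpow_natCast,
      ← Real.rpow_mul hp0.le, mul_comm, Real.rpow_mul hp0.le, hval]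
  obtain ⟨m, hm⟩ : ∃ m, n = m + 1 := ⟨n - 1, by omega⟩
  have e1 : f n = PS f n - PS f ((n : ℝ) - 1 / 2) := by
    have hfl : ⌊(n : ℝ) - 1 / 2⌋₊ = m := by
      rw [Nat.floor_eq_iff (by linarith), hm]
      push_cast
      constructor <;> linarith
    rw [PS_nat, PS, hfl, hm, Finset.sum_Icc_succ_top (by omega)]
    ring
  have h2 : ‖f n‖ ≤ ‖PS f n‖ + ‖PS f ((n : ℝ) - 1 / 2)‖ := by rw [e1]; exact norm_sub_le _ _
  rw [hfn] at h2
  have h3 : (n : ℝ) ^ θ * (n : ℝ) ^ (-θ) = 1 := by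
    rw [← Real.rpow_add hn0]; simp
  have hpos : 0 < (n : ℝ) ^ (-θ) := Real.rpow_pos_of_pos hn0 _
  rcases le_or_gt ((n : ℝ) ^ (-θ) / 2) ‖PS f n‖ with h5 | h5
  · refine ⟨n, by linarith, ?_⟩
    calc c ≤ 1 / 2 := hc.le
      _ = (n : ℝ) ^ θ * ((n : ℝ) ^ (-θ) / 2) := by rw [← h3]; ring
      _ ≤ _ := by gcongr
  · refine ⟨(n : ℝ) - 1 / 2, by linarith, ?_⟩
    have h6 : (n : ℝ) ^ (-θ) / 2 ≤ ‖PS f ((n : ℝ) - 1 / 2)‖ := by linarith
    set y : ℝ := 1 - 1 / (2 * n) with hy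
    have hy0 : 0 < y := by
      rw [hy, sub_pos, div_lt_one (by linarith)]; linarith
    have hy1 : y ≤ 1 := by rw [hy]; simp only [tsub_le_iff_right, le_add_iff_nonneg_right]; positivity
    have hyn : (n : ℝ) - 1 / 2 = n * y := by rw [hy]; field_simp
    have h7 : ((n : ℝ) - 1 / 2) ^ θ = (n : ℝ) ^ θ * y ^ θ := by
      rw [hyn, Real.mul_rpow hn0.le hy0.le]
    have h8 : y ≤ y ^ θ := by
      calc y = y ^ (1 : ℝ) := (Real.rpow_one y).symm
        _ ≤ y ^ θ := Real.rpow_le_rpow_of_exponent_ge hy0 hy1 hθ₁.le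
    have h9 : 2 * c ≤ y := by
      have h10 : 1 / (2 * (n : ℝ)) ≤ 1 - 2 * c := by
        rw [div_le_iff₀ (by linarith)]
        rw [div_le_iff₀ (by linarith)] at hk2
        nlinarith
      rw [hy]; linarith
    have h11 : 0 ≤ (n : ℝ) ^ θ * y ^ θ := by positivity
    calc c ≤ y ^ θ / 2 := by linarith
      _ = (n : ℝ) ^ θ * y ^ θ * ((n : ℝ) ^ (-θ) / 2) := by
          have : (n : ℝ) ^ θ * y ^ θ * ((n : ℝ) ^ (-θ) / 2) =
            ((n : ℝ) ^ θ * (n : ℝ) ^ (-θ)) * (y ^ θ / 2) := by ring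
          rw [this, h3, one_mul]
      _ ≤ ((n : ℝ) - 1 / 2) ^ θ * ‖PS f ((n : ℝ) - 1 / 2)‖ := by
          rw [h7]
          exact mul_le_mul_of_nonneg_left h6 h11

open Classical in
/-- the distance of `f(p)` to the disc `|z| ≤ 1/p`, except that it is `0` if `f(p)` is real and `≥ 1/p` -/
noncomputable def dev (f : ℕ → ℂ) (p : ℕ) : ℝ :=
  if ∃ r : ℝ, (p : ℝ)⁻¹ ≤ r ∧ f p = r then 0 else max 0 (‖f p‖ - (p : ℝ)⁻¹)

open Classical in
/-- the projection -/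
noncomputable def prj (f : ℕ → ℂ) (p : ℕ) : ℂ :=
  if (∃ r : ℝ, (p : ℝ)⁻¹ ≤ r ∧ f p = r) ∨ ‖f p‖ ≤ (p : ℝ)⁻¹ then f p
    else f p * (((p : ℝ)⁻¹ / ‖f p‖ : ℝ) : ℂ)

theorem good_of_dev {f : ℕ → ℂ} {p : ℕ} (h : dev f p = 0) : Good f p := by
  unfold dev at h
  split_ifs at h with h1
  · exact Or.inr h1
  · left
    have := le_max_right 0 (‖f p‖ - (p : ℝ)⁻¹)
    linarith

theorem prj_norm {f : ℕ → ℂ} {p : ℕ} : ‖prj f p - f p‖ = dev f p := by
  unfold prj dev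
  by_cases h1 : ∃ r : ℝ, (p : ℝ)⁻¹ ≤ r ∧ f p = r
  · rw [if_pos (Or.inl h1), if_pos h1, sub_self, norm_zero]
  · rw [if_neg h1]
    by_cases h2 : ‖f p‖ ≤ (p : ℝ)⁻¹
    · rw [if_pos (Or.inr h2), sub_self, norm_zero, max_eq_left (by linarith)]
    · rw [if_neg (not_or.2 ⟨h1, h2⟩)]
      push Not at h2
      have h3 : 0 < ‖f p‖ := lt_of_le_of_lt (by positivity) h2
      have e : f p * (((p : ℝ)⁻¹ / ‖f p‖ : ℝ) : ℂ) - f p =
          f p * ((((p : ℝ)⁻¹ / ‖f p‖ - 1 : ℝ)) : ℂ) := by push_cast; ring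
      rw [e, norm_mul, norm_real, Real.norm_eq_abs, abs_sub_comm, abs_of_nonneg, max_eq_right]
      · field_simp
      · linarith
      · rw [sub_nonneg, div_le_one h3]; exact h2.le

theorem prj_good {f : ℕ → ℂ} (p : ℕ) :
    ‖prj f p‖ ≤ (p : ℝ)⁻¹ ∨ ∃ r : ℝ, (p : ℝ)⁻¹ ≤ r ∧ prj f p = r := by
  unfold prj
  split_ifs with h1
  · rcases h1 with h1 | h1
    · exact Or.inr h1
    · exact Or.inl h1
  · left
    push Not at h1
    have h3 : 0 < ‖f p‖ := lt_of_le_of_lt (by positivity) h1.2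
    rw [norm_mul, norm_real, Real.norm_of_nonneg (by positivity)]
    apply le_of_eq
    field_simp

theorem prj_per {f : ℕ → ℂ}
    (h : Summable fun p : Nat.Primes => √((p : ℕ) : ℝ) * dev f p) : Per f (prj f) := by
  refine ⟨fun p _ => ?_, ?_⟩
  · unfold prj
    split_ifs with h1
    · exact Or.inl rfl
    · right
      push Not at h1
      have h3 : 0 < ‖f p‖ := lt_of_le_of_lt (by positivity) h1.2
      rw [norm_mul, norm_real, Real.norm_of_nonneg (by positivity)]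
      apply le_of_eq
      field_simp
  · refine h.congr fun p => ?_
    rw [prj_norm, mul_comm]

end Pool.Agent.J6H30.CMO
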