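import Mathlib
import Pool.Agent.J6H30.CMO.Core
import Pool.Agent.J6H30.CMO.Mell
import Pool.Agent.J6H30.CMO.Rem

/-! Assembly. -/

set_option autoImplicit false

open Complex Filter Topology MeasureTheory Set

namespace Pool.Agent.J6H30.CMO

theorem PS_nat (f : ℕ → ℂ) (n : ℕ) : PS f n = ∑ k ∈ Finset.Icc 1 n, f k := by
  simp [PS]

theorem f_eq (f : ℕ → ℂ) (n : ℕ) : f (n + 1) = PS f (n + 1 : ℕ) - PS f n := by
  rw [PS_nat, PS_nat, Finset.sum_Icc_succ_top (by omega)]; ring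

/-- `√n |f(n)|` is bounded -/
theorem f_bound {f : ℕ → ℂ} {C : ℝ} (hC : 0 ≤ C) (h : ∀ᶠ t : ℝ in atTop, √t * ‖PS f t‖ ≤ C) :
    ∀ᶠ n : ℕ in atTop, √(n : ℝ) * ‖f n‖ ≤ 3 * C := by
  have h1 : ∀ᶠ n : ℕ in atTop, √(n : ℝ) * ‖PS f n‖ ≤ C :=
    tendsto_natCast_atTop_atTop.eventually h
  obtain ⟨N, hN⟩ := eventually_atTop.1 h1
  filter_upwards [eventually_ge_atTop (N + 2)] with n hn
  obtain ⟨m, rfl⟩ : ∃ m, n = m + 1 := ⟨n - 1, by omega⟩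
  have hm1 : 1 ≤ m := by omega
  have h2 := hN (m + 1) (by omega)
  have h3 := hN m (by omega)
  have h4 : √((m + 1 : ℕ) : ℝ) ≤ 2 * √(m : ℝ) := by
    rw [show (2 : ℝ) * √(m : ℝ) = √(4 * m) by
      rw [Real.sqrt_mul (by norm_num), show (4 : ℝ) = 2 ^ 2 by norm_num,
        Real.sqrt_sq (by norm_num)]]
    apply Real.sqrt_le_sqrt
    have : (1 : ℝ) ≤ m := by exact_mod_cast hm1
    push_cast; linarith
  have h5 : ‖f (m + 1)‖ ≤ ‖PS f (m + 1 : ℕ)‖ + ‖PS f m‖ := by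
    rw [f_eq f m]; exact norm_sub_le _ _
  have h6 : √((m + 1 : ℕ) : ℝ) * ‖PS f m‖ ≤ 2 * C := by
    calc _ ≤ 2 * √(m : ℝ) * ‖PS f m‖ := by gcongr
      _ = 2 * (√(m : ℝ) * ‖PS f m‖) := by ring
      _ ≤ 2 * C := by gcongr
  calc √((m + 1 : ℕ) : ℝ) * ‖f (m + 1)‖
      ≤ √((m + 1 : ℕ) : ℝ) * (‖PS f (m + 1 : ℕ)‖ + ‖PS f m‖) := by gcongr
    _ = √((m + 1 : ℕ) : ℝ) * ‖PS f (m + 1 : ℕ)‖ + √((m + 1 : ℕ) : ℝ) * ‖PS f m‖ := by ring
    _ ≤ C + 2 * C := add_le_add h2 h6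
    _ = 3 * C := by ring

theorem le_one_of_pow {x A : ℝ} (h : ∀ᶠ k : ℕ in atTop, x ^ k ≤ A) : x ≤ 1 := by
  by_contra hx
  push Not at hx
  have h1 := (tendsto_pow_atTop_atTop_of_one_lt hx).eventually_gt_atTop A
  obtain ⟨k, hk1, hk2⟩ := (h.and h1).exists
  linarith

theorem prime_bound {f : ℕ → ℂ} (hf : CM f) {C : ℝ} (hC : 0 ≤ C)
    (h : ∀ᶠ t : ℝ in atTop, √t * ‖PS f t‖ ≤ C) {p : ℕ} (hp : p.Prime) : ‖f p‖ * √(p : ℝ) ≤ 1 := by
  refine le_one_of_pow (A := 3 * C) ?_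
  have h1 : Tendsto (fun k : ℕ => p ^ k) atTop atTop := tendsto_pow_atTop_atTop_of_one_lt hp.one_lt
  filter_upwards [h1.eventually (f_bound hC h)] with k hk
  rw [hf.pow hp.pos, norm_pow] at hk
  rw [mul_pow, mul_comm]
  refine le_trans (le_of_eq ?_) hk
  congr 1
  rw [Nat.cast_pow, Real.sqrt_eq_rpow, Real.sqrt_eq_rpow, ← Real.rpow_natCast,
    ← Real.rpow_natCast, ← Real.rpow_mul (Nat.cast_nonneg p), ← Real.rpow_mul (Nat.cast_nonneg p),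
    mul_comm]

theorem summ_of_bound {f : ℕ → ℂ} {C : ℝ} (hC : 0 ≤ C)
    (h : ∀ᶠ t : ℝ in atTop, √t * ‖PS f t‖ ≤ C) {s : ℂ} (hs : 1 < s.re) : LSeriesSummable f s := by
  refine LSeriesSummable_of_isBigO_rpow (x := 1) hs ?_
  refine Asymptotics.IsBigO.of_bound (3 * C) ?_
  filter_upwards [f_bound hC h, eventually_ge_atTop 1] with n hn hn1
  have h1 : (1 : ℝ) ≤ √(n : ℝ) := by
    rw [Real.one_le_sqrt]; exact_mod_cast hn1
  simp only [sub_self, Real.rpow_zero, norm_one, mul_one]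
  nlinarith [norm_nonneg (f n)]

theorem conj_PS (f : ℕ → ℂ) (t : ℝ) :
    PS (fun n => (starRingEnd ℂ) (f n)) t = (starRingEnd ℂ) (PS f t) := by
  simp [PS, map_sum]

/-- the finite Euler factor -/
noncomputable def Fin' (B : Finset ℕ) (f : ℕ → ℂ) (s : ℂ) : ℂ :=
  ∏ p ∈ B, (1 - f p * (p : ℂ) ^ (-s))

theorem Fin'_diff {B : Finset ℕ} (hB : ∀ p ∈ B, p.Prime) (f : ℕ → ℂ) (s : ℂ) :
    DifferentiableAt ℂ (Fin' B f) s := by
  unfold Fin'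
  refine DifferentiableAt.fun_finsetProd fun p hp => ?_
  refine (differentiableAt_const _).sub (DifferentiableAt.const_mul ?_ _)
  exact (differentiableAt_id.neg).const_cpow (Or.inl (by exact_mod_cast (hB p hp).ne_zero))

theorem ineq {f : ℕ → ℂ} (hf : CM f) {B : Finset ℕ} (hB : ∀ p ∈ B, p.Prime)
    (hg : ∀ p : ℕ, p.Prime → p ∉ B → Good f p) {C : ℝ} (hC : 0 ≤ C)
    (h : ∀ᶠ t : ℝ in atTop, √t * ‖PS f t‖ ≤ C) {σ : ℝ} (hσ : -(1 / 2) < σ) (hσ0 : σ < 0) :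
    ‖riemannZeta (2 + 2 * σ)‖ ^ 2 ≤ ‖Zr σ‖ ^ 2 * ‖ML f σ * Fin' B f σ‖ *
      ‖ML (fun n => (starRingEnd ℂ) (f n)) σ * Fin' B (fun n => (starRingEnd ℂ) (f n)) σ‖ := by
  set f' : ℕ → ℂ := fun n => (starRingEnd ℂ) (f n) with hf'
  have h' : ∀ᶠ t : ℝ in atTop, √t * ‖PS f' t‖ ≤ C := by
    filter_upwards [h] with t ht
    rwa [hf', conj_PS, RCLike.norm_conj]
  have hS : ∀ s : ℂ, 1 < s.re → LSeriesSummable f s := fun s hs => summ_of_bound hC h hs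
  have hS' : ∀ s : ℂ, 1 < s.re → LSeriesSummable f' s := fun s hs => summ_of_bound hC h' hs
  have e1 : (fun n => (starRingEnd ℂ) (rem B f n)) = rem B f' := funext fun n => rem_conj f B n
  refine core (f := rem B f) (rem_CM hf hB) (rem_good hB hg) ?_ ?_ ?_
    (M := fun s => ML f s * Fin' B f s) (M' := fun s => ML f' s * Fin' B f' s) ?_ ?_ ?_ ?_ hσ hσ0
  · intro p hp
    refine le_trans ?_ (prime_bound hf hC h hp)
    gcongr
    exact rem_norm_le f B p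
  · intro s hs
    exact rem_summable (hS s hs) B
  · intro s hs
    rw [e1]; exact rem_summable (hS' s hs) B
  · intro s hs
    exact (ML_diff h s hs).mul (Fin'_diff hB f s)
  · intro s hs
    exact (ML_diff h' s hs).mul (Fin'_diff hB f' s)
  · intro s hs
    rw [rem_LSeries hf hB (hS s hs), LS_eq h hs (hS s hs), Fin']
    ring
  · intro s hs
    rw [e1, rem_LSeries hf.conj hB (hS' s hs), LS_eq h' hs (hS' s hs), Fin']
    ring

theorem Fin'_conj (B : Finset ℕ) (f : ℕ → ℂ) (σ : ℝ) :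
    ‖Fin' B (fun n => (starRingEnd ℂ) (f n)) σ‖ = ‖Fin' B f σ‖ := by
  have : Fin' B (fun n => (starRingEnd ℂ) (f n)) σ = (starRingEnd ℂ) (Fin' B f σ) := by
    unfold Fin'
    rw [map_prod]
    refine Finset.prod_congr rfl fun p _ => ?_
    have e : (p : ℂ) ^ (-(σ : ℂ)) = (((p : ℝ) ^ (-σ) : ℝ) : ℂ) := by
      rw [ofReal_cpow (Nat.cast_nonneg p)]; push_cast; rfl
    rw [e, map_sub, map_one, map_mul, Complex.conj_ofReal]
  rw [this, RCLike.norm_conj]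

/-- **Main bound.** -/
theorem main_bound {f : ℕ → ℂ} (hf : CM f) {B : Finset ℕ} (hB : ∀ p ∈ B, p.Prime)
    (hg : ∀ p : ℕ, p.Prime → p ∉ B → Good f p) {C : ℝ}
    (h : ∀ᶠ t : ℝ in atTop, √t * ‖PS f t‖ ≤ C) :
    1 ≤ C * ‖riemannZeta (1 / 2)‖ * ∏ p ∈ B, ‖1 - (√(p : ℝ) : ℂ) * f p‖ := by
  have hC : 0 ≤ C := by
    obtain ⟨t, ht, ht0⟩ := (h.and (eventually_ge_atTop (0 : ℝ))).exists
    exact (mul_nonneg (Real.sqrt_nonneg t) (norm_nonneg _)).trans ht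
  set f' : ℕ → ℂ := fun n => (starRingEnd ℂ) (f n) with hf'
  have h' : ∀ᶠ t : ℝ in atTop, √t * ‖PS f' t‖ ≤ C := by
    filter_upwards [h] with t ht
    rwa [hf', conj_PS, RCLike.norm_conj]
  obtain ⟨K, hK⟩ := ML_bound hC h
  obtain ⟨K', hK'⟩ := ML_bound hC h'
  have hmain : ∀ δ : ℝ, 0 < δ → δ < 1 / 2 →
      ‖(2 * δ : ℂ) * riemannZeta (1 + 2 * δ)‖ ^ 2 ≤ ‖Zr ((δ : ℂ) - 1 / 2)‖ ^ 2 *
        ((2 * δ * K + 2 * C) * ‖Fin' B f ((δ : ℂ) - 1 / 2)‖) *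
        ((2 * δ * K' + 2 * C) * ‖Fin' B f ((δ : ℂ) - 1 / 2)‖) := by
    intro δ h1 h2
    have e0 : (((δ - 1 / 2 : ℝ)) : ℂ) = (δ : ℂ) - 1 / 2 := by push_cast; ring
    have h3 := ineq hf hB hg hC h (σ := δ - 1 / 2) (by linarith) (by linarith)
    have h4 := hK (δ - 1 / 2) (by linarith) (by linarith)
    have h5 := hK' (δ - 1 / 2) (by linarith) (by linarith)
    rw [norm_mul (ML _ _), norm_mul (ML _ _), Fin'_conj, e0] at h3
    rw [e0, show δ - 1 / 2 + 1 / 2 = δ by ring] at h4 h5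
    have e1 : (2 : ℂ) + 2 * ((δ : ℂ) - 1 / 2) = 1 + 2 * δ := by ring
    rw [e1] at h3
    have e2 : ‖(2 * δ : ℂ)‖ = 2 * δ := by
      rw [show (2 * δ : ℂ) = ((2 * δ : ℝ) : ℂ) by push_cast; rfl, norm_real,
        Real.norm_of_nonneg (by linarith)]
    rw [norm_mul, e2, mul_pow]
    have e3 : 2 * δ * K + 2 * C = 2 * δ * (K + C / δ) := by field_simp
    have e4 : 2 * δ * K' + 2 * C = 2 * δ * (K' + C / δ) := by field_simp
    rw [e3, e4]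
    have h6 : 0 ≤ K + C / δ := (norm_nonneg _).trans h4
    have h7 : 0 ≤ K' + C / δ := (norm_nonneg _).trans h5
    set P := ‖Fin' B f ((δ : ℂ) - 1 / 2)‖
    have hP : 0 ≤ P := norm_nonneg _
    calc (2 * δ) ^ 2 * ‖riemannZeta (1 + 2 * δ)‖ ^ 2
        ≤ (2 * δ) ^ 2 * (‖Zr ((δ : ℂ) - 1 / 2)‖ ^ 2 * (‖ML f ((δ : ℂ) - 1 / 2)‖ * P) *
          (‖ML f' ((δ : ℂ) - 1 / 2)‖ * P)) := by gcongr
      _ ≤ (2 * δ) ^ 2 * (‖Zr ((δ : ℂ) - 1 / 2)‖ ^ 2 * ((K + C / δ) * P) *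
          ((K' + C / δ) * P)) := by gcongr
      _ = _ := by ring
  -- the limits
  have t0 : Tendsto (fun δ : ℝ => (δ : ℂ)) (𝓝[>] 0) (𝓝 0) := by
    have : Tendsto (fun δ : ℝ => (δ : ℂ)) (𝓝 0) (𝓝 ((0 : ℝ) : ℂ)) :=
      Complex.continuous_ofReal.tendsto 0
    rw [ofReal_zero] at this
    exact this.mono_left nhdsWithin_le_nhds
  have t1 : Tendsto (fun δ : ℝ => ‖(2 * δ : ℂ) * riemannZeta (1 + 2 * δ)‖ ^ 2) (𝓝[>] 0) (𝓝 1) := by
    have a1 : Tendsto (fun δ : ℝ => (1 + 2 * δ : ℂ)) (𝓝[>] 0) (𝓝[≠] 1) := by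
      refine tendsto_nhdsWithin_iff.2 ⟨?_, ?_⟩
      · have := (t0.const_mul 2).const_add 1
        simpa using this
      · filter_upwards [self_mem_nhdsWithin] with δ hδ
        have hδ' : (0 : ℝ) < δ := hδ
        simp only [mem_compl_iff, mem_singleton_iff]
        intro hcon
        have : (δ : ℂ) = 0 := by linear_combination hcon / 2
        exact hδ'.ne' (by exact_mod_cast this)
    have a2 := ((riemannZeta_residue_one.comp a1).norm).pow 2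
    simp only [norm_one, one_pow] at a2
    refine a2.congr fun δ => ?_
    simp only [Function.comp]
    congr 3
    ring
  have t2 : Tendsto (fun δ : ℝ => ‖Zr ((δ : ℂ) - 1 / 2)‖ ^ 2 *
        ((2 * δ * K + 2 * C) * ‖Fin' B f ((δ : ℂ) - 1 / 2)‖) *
        ((2 * δ * K' + 2 * C) * ‖Fin' B f ((δ : ℂ) - 1 / 2)‖)) (𝓝[>] 0)
      (𝓝 (‖Zr (-(1 / 2))‖ ^ 2 * ((2 * 0 * K + 2 * C) * ‖Fin' B f (-(1 / 2))‖) *
        ((2 * 0 * K' + 2 * C) * ‖Fin' B f (-(1 / 2))‖))) := by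
    have b0 : Tendsto (fun δ : ℝ => (δ : ℂ) - 1 / 2) (𝓝[>] 0) (𝓝 (-(1 / 2))) := by
      have := t0.sub_const (1 / 2)
      simpa using this
    have b1 : Tendsto (fun δ : ℝ => ‖Zr ((δ : ℂ) - 1 / 2)‖) (𝓝[>] 0) (𝓝 ‖Zr (-(1 / 2))‖) :=
      ((Zr_diff.continuous.tendsto _).comp b0).norm
    have b2 : Tendsto (fun δ : ℝ => ‖Fin' B f ((δ : ℂ) - 1 / 2)‖) (𝓝[>] 0)
        (𝓝 ‖Fin' B f (-(1 / 2))‖) :=
      (((Fin'_diff hB f (-(1 / 2))).continuousAt.tendsto).comp b0).norm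
    have b3 : Tendsto (fun δ : ℝ => δ) (𝓝[>] (0 : ℝ)) (𝓝 0) :=
      tendsto_id.mono_left nhdsWithin_le_nhds
    exact ((b1.pow 2).mul ((((b3.const_mul 2).mul_const K).add_const _).mul b2)).mul
      ((((b3.const_mul 2).mul_const K').add_const _).mul b2)
  have hlim := le_of_tendsto_of_tendsto t1 t2 (by
    filter_upwards [Ioo_mem_nhdsGT (show (0 : ℝ) < 1 / 2 by norm_num)] with δ hδ
    exact hmain δ hδ.1 hδ.2)
  have e5 : ‖Zr (-(1 / 2))‖ = ‖riemannZeta (1 / 2)‖ / 2 := by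
    rw [Zr_apply (by norm_num), norm_mul, show (1 : ℂ) + -(1 / 2) = 1 / 2 by norm_num]
    rw [norm_neg, norm_div, norm_one]
    simp
    ring
  have e6 : ‖Fin' B f (-(1 / 2))‖ = ∏ p ∈ B, ‖1 - (√(p : ℝ) : ℂ) * f p‖ := by
    rw [Fin', norm_prod]
    refine Finset.prod_congr rfl fun p _ => ?_
    congr 2
    rw [neg_neg, mul_comm, Real.sqrt_eq_rpow, ofReal_cpow (Nat.cast_nonneg p)]
    push_cast; rfl
  rw [e5, e6] at hlim
  set Q := ∏ p ∈ B, ‖1 - (√(p : ℝ) : ℂ) * f p‖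
  have hQ : 0 ≤ Q := Finset.prod_nonneg fun _ _ => norm_nonneg _
  set R := C * ‖riemannZeta (1 / 2)‖ * Q
  have hR : 0 ≤ R := by positivity
  have h1R : 1 ≤ R ^ 2 := by
    refine hlim.trans (le_of_eq ?_)
    simp only [R]; ring
  by_contra hcon
  push Not at hcon
  nlinarith

end Pool.Agent.J6H30.CMO
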