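import Mathlib
import Pool.Agent.J6H30.CMO.Fin

/-! The bound for perturbations with the explicit constant. -/

set_option autoImplicit false

open Complex Filter Topology MeasureTheory Set ArithmeticFunction

namespace Pool.Agent.J6H30.CMO

theorem gq'_conj (f z : ℕ → ℂ) (n : ℕ) :
    gq' (fun n => (starRingEnd ℂ) (f n)) (fun n => (starRingEnd ℂ) (z n)) n =
      (starRingEnd ℂ) (gq' f z n) := by
  unfold gq'
  rw [ArithmeticFunction.mul_apply, ArithmeticFunction.mul_apply, map_sum]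
  refine Finset.sum_congr rfl fun x hx => ?_
  have h1 : x.1 ≠ 0 := Nat.ne_zero_of_mem_divisorsAntidiagonal hx |>.1
  have h2 : x.2 ≠ 0 := Nat.ne_zero_of_mem_divisorsAntidiagonal hx |>.2
  rw [map_mul, muf_apply, muf_apply, cm_apply _ h1, cm_apply _ h1, cm_apply _ h2, cm_apply _ h2,
    map_mul, cmf_conj]
  simp

theorem gq'_LS_conj (f z : ℕ → ℂ) (σ : ℝ) :
    ‖LSeries (fun n => gq' (fun n => (starRingEnd ℂ) (f n)) (fun n => (starRingEnd ℂ) (z n)) n) σ‖ =
      ‖LSeries (fun n => gq' f z n) σ‖ := by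
  have e : LSeries (fun n => gq' (fun n => (starRingEnd ℂ) (f n))
      (fun n => (starRingEnd ℂ) (z n)) n) σ = (starRingEnd ℂ) (LSeries (fun n => gq' f z n) σ) := by
    unfold LSeries
    rw [Complex.conj_tsum]
    refine tsum_congr fun n => ?_
    rcases Nat.eq_zero_or_pos n with rfl | hn
    · simp
    · rw [LSeries.term_of_ne_zero hn.ne', LSeries.term_of_ne_zero hn.ne', gq'_conj, map_div₀]
      congr 1
      have : (n : ℂ) ^ (σ : ℂ) = (((n : ℝ) ^ σ : ℝ) : ℂ) := by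
        rw [ofReal_cpow (Nat.cast_nonneg n)]; push_cast; rfl
      rw [this, Complex.conj_ofReal]
  rw [e, RCLike.norm_conj]

/-- continuity at `-1/2` -/
theorem gq'_lim {f z : ℕ → ℂ} (h : CM f) (hz : Per f z) :
    Tendsto (fun δ : ℝ => LSeries (fun n => gq' f z n) ((δ : ℂ) - 1 / 2)) (𝓝[>] 0)
      (𝓝 (LSeries (fun n => gq' f z n) (-(1 / 2)))) := by
  unfold LSeries
  refine tendsto_tsum_of_dominated_convergence (bound := fun n => wt f z n) (wt_summable h hz)
    ?_ ?_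
  · intro n
    rcases Nat.eq_zero_or_pos n with rfl | hn
    · simp
    · simp only [LSeries.term_of_ne_zero hn.ne']
      have hn' : (n : ℂ) ≠ 0 := by exact_mod_cast hn.ne'
      have t0 : Tendsto (fun δ : ℝ => (δ : ℂ) - 1 / 2) (𝓝[>] 0) (𝓝 (-(1 / 2))) := by
        have h1 : Tendsto (fun δ : ℝ => (δ : ℂ) - 1 / 2) (𝓝 0) (𝓝 (((0 : ℝ) : ℂ) - 1 / 2)) :=
          (Complex.continuous_ofReal.tendsto 0).sub_const _
        rw [ofReal_zero, zero_sub] at h1
        exact h1.mono_left nhdsWithin_le_nhds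
      have t1 : Tendsto (fun s : ℂ => (n : ℂ) ^ s) (𝓝 (-(1 / 2))) (𝓝 ((n : ℂ) ^ (-(1 / 2) : ℂ))) :=
        (continuousAt_const_cpow hn').tendsto
      exact (tendsto_const_nhds).div (t1.comp t0) (by
        rw [Ne, Complex.cpow_eq_zero_iff]; tauto)
  · filter_upwards [self_mem_nhdsWithin] with δ hδ n
    have hδ' : (0 : ℝ) < δ := hδ
    exact gq'_term_le (by simp; linarith) n

/-- the local factors at `-1/2` -/
noncomputable def fac (f z : ℕ → ℂ) (p : ℕ) : ℝ :=
  if z p = f p then 1 else ‖1 - (√(p : ℝ) : ℂ) * f p‖ / ‖1 - (√(p : ℝ) : ℂ) * z p‖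

theorem gq'_prod {f z : ℕ → ℂ} (h : CM f) (hz : Per f z) :
    HasProd (fun p : Nat.Primes => fac f z p) ‖LSeries (fun n => gq' f z n) (-(1 / 2))‖ := by
  set F : ℕ → ℂ := fun n => gq' f z n * (√(n : ℝ) : ℂ) with hF
  have hF1 : F 1 = 1 := by simp [hF, (gq'_mult h z).1]
  have hFm : ∀ {m n : ℕ}, m.Coprime n → F (m * n) = F m * F n := by
    intro m n hmn
    simp only [hF]
    rw [(gq'_mult h z).2 hmn, Nat.cast_mul, Real.sqrt_mul (Nat.cast_nonneg m), ofReal_mul]
    ring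
  have hFn : ∀ n, ‖F n‖ = wt f z n := by
    intro n
    rw [hF, wt, norm_mul, norm_real, Real.norm_of_nonneg (Real.sqrt_nonneg _)]
  have hFs : Summable (fun n => ‖F n‖) := by simp only [hFn]; exact wt_summable h hz
  have hF0 : F 0 = 0 := by simp [hF]
  have h1 := EulerProduct.eulerProduct_hasProd hF1 hFm hFs hF0
  have e1 : ∑' n, F n = LSeries (fun n => gq' f z n) (-(1 / 2)) := by
    unfold LSeries
    refine tsum_congr fun n => ?_
    rcases Nat.eq_zero_or_pos n with rfl | hn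
    · simp [hF]
    · rw [LSeries.term_of_ne_zero hn.ne', hF]
      simp only
      rw [div_eq_mul_inv, cpow_neg, inv_inv, Real.sqrt_eq_rpow, ofReal_cpow (Nat.cast_nonneg n)]
      push_cast; rfl
  rw [e1] at h1
  have h2 := h1.norm
  have key : ∀ p : Nat.Primes, ‖∑' e, F ((p : ℕ) ^ e)‖ = fac f z p := by
    rintro ⟨p, hp⟩
    simp only
    have hp0 : (0 : ℝ) < p := by exact_mod_cast hp.pos
    have hp2 : (2 : ℝ) ≤ p := by exact_mod_cast hp.two_le
    have hsq : ∀ k : ℕ, √((p ^ (k + 1) : ℕ) : ℝ) = √(p : ℝ) * √(p : ℝ) ^ k := by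
      intro k
      rw [Nat.cast_pow, pow_succ, mul_comm, Real.sqrt_mul hp0.le]
      congr 1
      rw [Real.sqrt_eq_iff_mul_self_eq (by positivity) (by positivity), ← pow_add, ← two_mul,
        pow_mul, Real.sq_sqrt hp0.le]
    have e2 : ∀ k, F (p ^ (k + 1)) =
        ((z p - f p) * (√(p : ℝ) : ℂ)) * (z p * (√(p : ℝ) : ℂ)) ^ k := by
      intro k
      simp only [hF]
      rw [gq'_pow h z hp, hsq, ofReal_mul, ofReal_pow, mul_pow]; ring
    by_cases hzf : z p = f p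
    · have e3 : ∀ k, F (p ^ (k + 1)) = 0 := by intro k; rw [e2, hzf, sub_self]; ring
      have hs : HasSum (fun k => F (p ^ k)) 1 := by
        have := hasSum_single (f := fun k => F (p ^ k)) 0 (by
          intro k hk
          obtain ⟨m, rfl⟩ := Nat.exists_eq_succ_of_ne_zero hk
          exact e3 m)
        simpa [hF1] using this
      rw [hs.tsum_eq, fac, if_pos hzf, norm_one]
    · have hzp : ‖z p‖ ≤ (p : ℝ)⁻¹ := (hz.alt p hp).resolve_left hzf
      have hx1 : ‖z p * (√(p : ℝ) : ℂ)‖ ≤ 3 / 4 := by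
        rw [norm_mul, norm_real, Real.norm_of_nonneg (Real.sqrt_nonneg _)]
        have h2 : ‖z p‖ * √(p : ℝ) ≤ (p : ℝ)⁻¹ * √(p : ℝ) := by gcongr
        have h3 : (p : ℝ)⁻¹ * √(p : ℝ) = (√(p : ℝ))⁻¹ := by
          have h4 : √(p : ℝ) * √(p : ℝ) = p := Real.mul_self_sqrt hp0.le
          have h5 : 0 < √(p : ℝ) := Real.sqrt_pos.2 hp0
          field_simp
          nlinarith
        have h4 : (4 / 3 : ℝ) ≤ √(p : ℝ) := by
          rw [Real.le_sqrt (by norm_num) hp0.le]; linarith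
        rw [h3] at h2
        refine h2.trans ?_
        rw [inv_le_comm₀ (by positivity) (by norm_num)]
        linarith
      have hx2 : ‖z p * (√(p : ℝ) : ℂ)‖ < 1 := by linarith
      have hne : (1 - z p * (√(p : ℝ) : ℂ)) ≠ 0 := by
        intro hcon
        have : z p * (√(p : ℝ) : ℂ) = 1 := by linear_combination -hcon
        rw [this, norm_one] at hx2
        exact lt_irrefl _ hx2
      have hgs : HasSum (fun k => F (p ^ (k + 1)))
          ((z p - f p) * (√(p : ℝ) : ℂ) * (1 - z p * (√(p : ℝ) : ℂ))⁻¹) := by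
        simp only [e2]
        exact (hasSum_geometric_of_norm_lt_one hx2).mul_left _
      have hs : HasSum (fun k => F (p ^ k))
          (F (p ^ 0) + (z p - f p) * (√(p : ℝ) : ℂ) * (1 - z p * (√(p : ℝ) : ℂ))⁻¹) := by
        have := (hasSum_nat_add_iff (f := fun k => F (p ^ k)) 1).1 hgs
        simpa [add_comm] using this
      rw [hs.tsum_eq, pow_zero, hF1, fac, if_neg hzf, ← norm_div]
      congr 1
      rw [mul_comm (√(p : ℝ) : ℂ) (z p)]
      field_simp
      ring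
  have h3 : (fun p : Nat.Primes => fac f z p) = fun p : Nat.Primes => ‖∑' e, F ((p : ℕ) ^ e)‖ :=
    funext fun p => (key p).symm
  rw [h3]
  exact h2

/-- **Main bound**, perturbations, explicit constant. -/
theorem main_sharp {f z : ℕ → ℂ} (hf : CM f) {b : ℝ} (hb : BP f b) (hz : Per f z)
    (hg : ∀ p : ℕ, p.Prime → ‖z p‖ ≤ (p : ℝ)⁻¹ ∨ ∃ r : ℝ, (p : ℝ)⁻¹ ≤ r ∧ z p = r) {C : ℝ}
    (h : LogHyp f C) :
    1 ≤ C * ‖riemannZeta (1 / 2)‖ * ∏' p : Nat.Primes, fac f z p := by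
  set f' : ℕ → ℂ := fun n => (starRingEnd ℂ) (f n) with hf'
  set z' : ℕ → ℂ := fun n => (starRingEnd ℂ) (z n) with hz'
  have hS : ∀ s : ℂ, 1 < s.re → LSeriesSummable f s := fun s hs => hb.summ hs
  have hS' : ∀ s : ℂ, 1 < s.re → LSeriesSummable f' s := fun s hs => hb.conj.summ hs
  have e1 : (fun n => (starRingEnd ℂ) (cmf z n)) = cmf z' := funext fun n => cmf_conj z n
  have hC := h.nonneg
  obtain ⟨K, hK⟩ := MT_bound hC h
  obtain ⟨K', hK'⟩ := MT_bound hC h.conj
  have hin : ∀ σ : ℝ, -(1 / 2) < σ → σ < 0 → ‖riemannZeta (2 + 2 * σ)‖ ^ 2 ≤ ‖Zr σ‖ ^ 2 *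
      ‖MT f σ * LSeries (fun n => gq' f z n) σ‖ *
      ‖MT f' σ * LSeries (fun n => gq' f' z' n) σ‖ := by
    intro σ hσ hσ0
    refine core (f := cmf z) (cmf_CM z) ?_ ?_ ?_
      (M := fun s => MT f s * LSeries (fun n => gq' f z n) s)
      (M' := fun s => MT f' s * LSeries (fun n => gq' f' z' n) s) ?_ ?_ ?_ ?_ hσ hσ0
    · intro p hp
      unfold Good
      rw [cmf_prime z hp]
      exact hg p hp
    · intro s hs
      exact (cmf_LSeries hf hz (by linarith) (hS s hs)).1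
    · intro s hs
      rw [e1]; exact (cmf_LSeries hf.conj hz.conj (by linarith) (hS' s hs)).1
    · intro s hs
      exact (MT_diff hC h s hs).mul (gq'_diff hf hz hs)
    · intro s hs
      exact (MT_diff hC h.conj s hs).mul (gq'_diff hf.conj hz.conj hs)
    · intro s hs
      rw [(cmf_LSeries hf hz (by linarith) (hS s hs)).2, LS_eq' hb hs (hS s hs)]
      ring
    · intro s hs
      rw [e1, (cmf_LSeries hf.conj hz.conj (by linarith) (hS' s hs)).2,
        LS_eq' hb.conj hs (hS' s hs)]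
      ring
  have hlim := limit_arg (C := C) (K := K) (K' := K')
    (V := fun δ => ‖LSeries (fun n => gq' f z n) ((δ : ℂ) - 1 / 2)‖ ^ 2)
    (V0 := ‖LSeries (fun n => gq' f z n) (-(1 / 2))‖ ^ 2) hC
    (fun δ => by positivity) (((gq'_lim hf hz).norm).pow 2) ?_ ?_
  · rw [(gq'_prod hf hz).tprod_eq]
    set Q := ‖LSeries (fun n => gq' f z n) (-(1 / 2))‖ with hQ
    have hQ : 0 ≤ Q := norm_nonneg _
    have hR : 0 ≤ C * ‖riemannZeta (1 / 2)‖ * Q := by positivity
    rw [← mul_pow] at hlim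
    by_contra hcon
    push Not at hcon
    nlinarith
  · intro δ h1 h2
    have h4 := hK (δ - 1 / 2) (by linarith) (by linarith)
    rw [show δ - 1 / 2 + 1 / 2 = δ by ring] at h4
    exact (norm_nonneg _).trans h4
  · intro δ h1 h2
    have e0 : (((δ - 1 / 2 : ℝ)) : ℂ) = (δ : ℂ) - 1 / 2 := by push_cast; ring
    have h3 := hin (δ - 1 / 2) (by linarith) (by linarith)
    have h4 := hK (δ - 1 / 2) (by linarith) (by linarith)
    have h5 := hK' (δ - 1 / 2) (by linarith) (by linarith)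
    rw [norm_mul (MT _ _), norm_mul (MT _ _), gq'_LS_conj, e0] at h3
    rw [e0, show δ - 1 / 2 + 1 / 2 = δ by ring] at h4 h5
    have e1 : (2 : ℂ) + 2 * ((δ : ℂ) - 1 / 2) = 1 + 2 * δ := by ring
    rw [e1] at h3
    set P := ‖LSeries (fun n => gq' f z n) ((δ : ℂ) - 1 / 2)‖
    have hP : 0 ≤ P := norm_nonneg _
    have h6 : 0 ≤ K + C / δ := (norm_nonneg _).trans h4
    calc ‖riemannZeta (1 + 2 * δ)‖ ^ 2
        ≤ ‖Zr ((δ : ℂ) - 1 / 2)‖ ^ 2 * (‖MT f ((δ : ℂ) - 1 / 2)‖ * P) *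
          (‖MT f' ((δ : ℂ) - 1 / 2)‖ * P) := h3
      _ ≤ ‖Zr ((δ : ℂ) - 1 / 2)‖ ^ 2 * ((K + C / δ) * P) * ((K' + C / δ) * P) := by gcongr
      _ = _ := by ring

end Pool.Agent.J6H30.CMO
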